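import Pool.Agent.Lib.MP_f4f1a8_lc.Defs

/-! MP_f4f1a8_lc, nonconcavity: linear codes as sets of Boolean words. -/

namespace Pool.Agent.Lib.MP_f4f1a8_lc.NC

open Finset

/-- Componentwise exclusive or. -/
def bx {n : ℕ} (x y : Fin n → Bool) : Fin n → Bool := fun i => xor (x i) (y i)

/-- A linear code. -/
def Lin {n : ℕ} (S : Finset (Fin n → Bool)) : Prop :=
  S.Nonempty ∧ ∀ x ∈ S, ∀ y ∈ S, bx x y ∈ S

end Pool.Agent.Lib.MP_f4f1a8_lc.NC
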