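import Pool.Agent.Lib.MP_f4f1a8_lc.PCode
import Pool.Agent.Lib.MP_f4f1a8_lc.LLem
import Pool.Agent.Lib.MP_f4f1a8_lc.NC.Defs

/-! MP_f4f1a8_lc, nonconcavity: the first linear code with a given profile at three radii, and
descriptions of the points near it. -/

namespace Pool.Agent.Lib.MP_f4f1a8_lc.NC

open Finset

namespace TD

/-- exclusive or of two strings of the same length -/
def lxor (a b : List Bool) : List Bool :=
  (List.range a.length).map (fun i => decide (a[i]? ≠ b[i]?))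

/-- number of strings within distance `d` of the list `T` -/
def nc (n : ℕ) (T : List (List Bool)) (d : ℕ) : ℕ :=
  ((strs n).filter (fun y => decide (∃ c ∈ T, ldist c y ≤ d))).length

/-- `e` codes a radius and the rounded logarithm of the number of strings near `T` -/
def Ok (n : ℕ) (T : List (List Bool)) (e : ℕ) : Prop :=
  2 ^ e.unpair.2 ≤ nc n T e.unpair.1 ∧ nc n T e.unpair.1 < 2 ^ (e.unpair.2 + 1)

/-- `T` lists a linear code with the profile `t` -/
def Good (n t : ℕ) (T : List (List Bool)) : Prop :=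
  T.length ≠ 0 ∧ (∀ c ∈ T, c.length = n) ∧ (∀ a ∈ T, ∀ b ∈ T, ∃ c ∈ T, c = lxor a b) ∧
    Ok n T t.unpair.1 ∧ Ok n T t.unpair.2.unpair.1 ∧ Ok n T t.unpair.2.unpair.2

/-- the relation enumerated -/
def Q (p : ℕ) (y : List Bool) (k : ℕ) : Prop :=
  y.length = p.unpair.1.unpair.1 ∧ Good p.unpair.1.unpair.1 p.unpair.1.unpair.2 (PC.D k) ∧
    (∀ k' ∈ List.range k, ¬ Good p.unpair.1.unpair.1 p.unpair.1.unpair.2 (PC.D k')) ∧
    ∃ c ∈ PC.D k, ldist c y ≤ p.unpair.2

theorem primrec_lxor : Primrec₂ lxor := by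
  have hR : PrimrecRel (fun (p : List Bool × List Bool) (i : ℕ) => p.1[i]? ≠ p.2[i]?) := by
    apply PrimrecPred.not
    apply Primrec.eq.comp
    · exact Primrec.list_getElem?.comp (Primrec.fst.comp Primrec.fst) Primrec.snd
    · exact Primrec.list_getElem?.comp (Primrec.snd.comp Primrec.fst) Primrec.snd
  have hd : Primrec₂ (fun (p : List Bool × List Bool) (i : ℕ) =>
      decide (p.1[i]? ≠ p.2[i]?)) := hR.decide
  have h1 : Primrec (fun p : List Bool × List Bool =>
      (List.range p.1.length).map (fun i => decide (p.1[i]? ≠ p.2[i]?))) :=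
    Primrec.list_map (Primrec.list_range.comp (Primrec.list_length.comp Primrec.fst)) hd
  exact h1

theorem primrec_near : PrimrecRel (fun (y : List Bool) (b : List (List Bool) × ℕ) =>
    ∃ c ∈ b.1, ldist c y ≤ b.2) := by
  have h5 : PrimrecRel (fun (c : List Bool) (b : List Bool × ℕ) => ldist c b.1 ≤ b.2) :=
    Primrec.nat_le.comp₂
      (primrec_ldist.comp₂ Primrec₂.left (Primrec.fst.comp₂ Primrec₂.right))
      (Primrec.snd.comp₂ Primrec₂.right)
  exact h5.exists_mem_list.comp (Primrec.fst.comp Primrec.snd)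
    (Primrec.fst.pair (Primrec.snd.comp Primrec.snd))

theorem primrec_nc : Primrec (fun a : ℕ × List (List Bool) × ℕ => nc a.1 a.2.1 a.2.2) := by
  have h : Primrec (fun a : ℕ × List (List Bool) × ℕ =>
      ((strs a.1).filter (fun y => decide (∃ c ∈ a.2.1, ldist c y ≤ a.2.2))).length) :=
    Primrec.list_length.comp ((primrec_near.listFilter).comp (primrec_strs.comp Primrec.fst)
      Primrec.snd)
  exact h

theorem primrec_ok : PrimrecPred (fun a : ℕ × List (List Bool) × ℕ => Ok a.1 a.2.1 a.2.2) := by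
  have he1 : Primrec (fun a : ℕ × List (List Bool) × ℕ => a.2.2.unpair.1) :=
    Primrec.fst.comp (Primrec.unpair.comp (Primrec.snd.comp Primrec.snd))
  have he2 : Primrec (fun a : ℕ × List (List Bool) × ℕ => a.2.2.unpair.2) :=
    Primrec.snd.comp (Primrec.unpair.comp (Primrec.snd.comp Primrec.snd))
  have hnc : Primrec (fun a : ℕ × List (List Bool) × ℕ => nc a.1 a.2.1 a.2.2.unpair.1) :=
    primrec_nc.comp (Primrec.fst.pair ((Primrec.fst.comp Primrec.snd).pair he1))
  exact (Primrec.nat_le.comp (PC.primrec_two_pow.comp he2) hnc).and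
    (Primrec.nat_lt.comp hnc (PC.primrec_two_pow.comp (Primrec.succ.comp he2)))

theorem primrec_closed : PrimrecPred (fun T : List (List Bool) =>
    ∀ x ∈ T, ∀ b ∈ T, ∃ c ∈ T, c = lxor x b) := by
  have e1 : PrimrecRel (fun (c : List Bool) (b : List Bool × List Bool) =>
      c = lxor b.2 b.1) :=
    Primrec.eq.comp Primrec.fst (primrec_lxor.comp (Primrec.snd.comp Primrec.snd)
      (Primrec.fst.comp Primrec.snd))
  have e2 : PrimrecRel (fun (b : List Bool) (q : List Bool × List (List Bool)) =>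
      ∃ c ∈ q.2, c = lxor q.1 b) :=
    e1.exists_mem_list.comp (Primrec.snd.comp Primrec.snd)
      (Primrec.fst.pair (Primrec.fst.comp Primrec.snd))
  have e3 : PrimrecRel (fun (x : List Bool) (T : List (List Bool)) =>
      ∀ b ∈ T, ∃ c ∈ T, c = lxor x b) :=
    e2.forall_mem_list.comp Primrec.snd Primrec.id
  exact e3.forall_mem_list.comp Primrec.id Primrec.id

theorem primrec_ok' {f : ℕ → ℕ} (hf : Primrec f) :
    PrimrecPred (fun a : ℕ × ℕ × List (List Bool) => Ok a.1 a.2.2 (f a.2.1)) := by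
  have h : Primrec (fun a : ℕ × ℕ × List (List Bool) => (a.1, a.2.2, f a.2.1)) :=
    Primrec.fst.pair ((Primrec.snd.comp Primrec.snd).pair
      (hf.comp (Primrec.fst.comp Primrec.snd)))
  exact primrec_ok.comp h

theorem primrec_good :
    PrimrecPred (fun a : ℕ × ℕ × List (List Bool) => Good a.1 a.2.1 a.2.2) := by
  have hT : Primrec (fun a : ℕ × ℕ × List (List Bool) => a.2.2) := Primrec.snd.comp Primrec.snd
  have h1 : PrimrecPred (fun a : ℕ × ℕ × List (List Bool) => a.2.2.length ≠ 0) :=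
    (Primrec.eq.comp (Primrec.list_length.comp hT) (Primrec.const 0)).not
  have h2 : PrimrecPred (fun a : ℕ × ℕ × List (List Bool) => ∀ c ∈ a.2.2, c.length = a.1) := by
    have h : PrimrecRel (fun (c : List Bool) (n : ℕ) => c.length = n) :=
      Primrec.eq.comp₂ (Primrec.list_length.comp₂ Primrec₂.left) Primrec₂.right
    exact h.forall_mem_list.comp hT Primrec.fst
  have h3 : PrimrecPred (fun a : ℕ × ℕ × List (List Bool) =>
      ∀ x ∈ a.2.2, ∀ b ∈ a.2.2, ∃ c ∈ a.2.2, c = lxor x b) := primrec_closed.comp hT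
  have u1 : Primrec (fun t : ℕ => t.unpair.1) := Primrec.fst.comp Primrec.unpair
  have u2 : Primrec (fun t : ℕ => t.unpair.2) := Primrec.snd.comp Primrec.unpair
  have hk1 := primrec_ok' u1
  have hk2 := primrec_ok' (u1.comp u2)
  have hk3 := primrec_ok' (u2.comp u2)
  have h4 := h1.and (h2.and (h3.and (hk1.and (hk2.and hk3))))
  exact h4.of_eq (fun a => Iff.rfl)

theorem primrec_Q : PrimrecPred (fun a : ℕ × List Bool × ℕ => Q a.1 a.2.1 a.2.2) := by
  have hn : Primrec (fun a : ℕ × List Bool × ℕ => a.1.unpair.1.unpair.1) :=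
    Primrec.fst.comp (Primrec.unpair.comp (Primrec.fst.comp (Primrec.unpair.comp Primrec.fst)))
  have hl : Primrec (fun a : ℕ × List Bool × ℕ => a.1.unpair.1.unpair.2) :=
    Primrec.snd.comp (Primrec.unpair.comp (Primrec.fst.comp (Primrec.unpair.comp Primrec.fst)))
  have hj : Primrec (fun a : ℕ × List Bool × ℕ => a.1.unpair.2) :=
    Primrec.snd.comp (Primrec.unpair.comp Primrec.fst)
  have hy : Primrec (fun a : ℕ × List Bool × ℕ => a.2.1) := Primrec.fst.comp Primrec.snd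
  have hk : Primrec (fun a : ℕ × List Bool × ℕ => a.2.2) := Primrec.snd.comp Primrec.snd
  have h1 : PrimrecPred (fun a : ℕ × List Bool × ℕ => a.2.1.length = a.1.unpair.1.unpair.1) :=
    Primrec.eq.comp (Primrec.list_length.comp hy) hn
  have h2 : PrimrecPred (fun a : ℕ × List Bool × ℕ =>
      Good a.1.unpair.1.unpair.1 a.1.unpair.1.unpair.2 (PC.D a.2.2)) :=
    primrec_good.comp (hn.pair (hl.pair (PC.primrec_D.comp hk)))
  have h3 : PrimrecRel (fun (k : ℕ) (b : ℕ × ℕ) => ¬ Good b.1 b.2 (PC.D k)) :=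
    (primrec_good.comp ((Primrec.fst.comp Primrec.snd).pair
      ((Primrec.snd.comp Primrec.snd).pair (PC.primrec_D.comp Primrec.fst)))).not
  have h4 : PrimrecPred (fun a : ℕ × List Bool × ℕ =>
      ∀ k' ∈ List.range a.2.2, ¬ Good a.1.unpair.1.unpair.1 a.1.unpair.1.unpair.2 (PC.D k')) :=
    h3.forall_mem_list.comp (Primrec.list_range.comp hk) (hn.pair hl)
  have h6 : PrimrecPred (fun a : ℕ × List Bool × ℕ =>
      ∃ c ∈ PC.D a.2.2, ldist c a.2.1 ≤ a.1.unpair.2) :=
    primrec_near.comp hy ((PC.primrec_D.comp hk).pair hj)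
  exact h1.and (h2.and (h4.and h6))

theorem lxor_ofFn {n : ℕ} (x y : Fin n → Bool) :
    lxor (List.ofFn x) (List.ofFn y) = List.ofFn (bx x y) := by
  unfold lxor
  apply List.ext_getElem?
  intro i
  by_cases hi : i < n
  · simp [hi, bx]
    cases x ⟨i, hi⟩ <;> cases y ⟨i, hi⟩ <;> simp
  · simp [hi]

/-- the set listed by `T` -/
noncomputable def fs (n : ℕ) (T : List (List Bool)) : Finset (Fin n → Bool) := by
  classical
  exact univ.filter (fun x => List.ofFn x ∈ T)

theorem mem_fs {n : ℕ} {T : List (List Bool)} {x : Fin n → Bool} :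
    x ∈ fs n T ↔ List.ofFn x ∈ T := by
  classical
  simp [fs]

theorem near_iff {n : ℕ} {T : List (List Bool)} (hT : ∀ c ∈ T, c.length = n)
    (y : Fin n → Bool) (d : ℕ) :
    (∃ c ∈ T, ldist c (List.ofFn y) ≤ d) ↔ y ∈ nbr (fs n T) d := by
  rw [mem_nbr]
  constructor
  · rintro ⟨c, hc, h⟩
    obtain ⟨x, rfl⟩ := PC.exists_ofFn c (hT c hc)
    exact ⟨x, mem_fs.2 hc, by rwa [ldist_ofFn] at h⟩
  · rintro ⟨x, hx, h⟩
    exact ⟨List.ofFn x, mem_fs.1 hx, by rwa [ldist_ofFn]⟩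

theorem nc_eq {n : ℕ} {T : List (List Bool)} (hT : ∀ c ∈ T, c.length = n) (d : ℕ) :
    nc n T d = (nbr (fs n T) d).card := by
  unfold nc
  rw [← List.toFinset_card_of_nodup ((strs_nodup n).filter _)]
  symm
  apply Finset.card_bij (fun z _ => List.ofFn z)
  · intro z hz
    rw [List.mem_toFinset, List.mem_filter]
    refine ⟨mem_strs.2 (List.length_ofFn), ?_⟩
    rw [decide_eq_true_eq]
    exact (near_iff hT z d).2 hz
  · intro z _ z' _ h
    exact List.ofFn_injective h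
  · intro z hz
    rw [List.mem_toFinset, List.mem_filter] at hz
    obtain ⟨z', rfl⟩ := PC.exists_ofFn z (mem_strs.1 hz.1)
    refine ⟨z', ?_, rfl⟩
    have h2 := hz.2
    rw [decide_eq_true_eq] at h2
    exact (near_iff hT z' d).1 h2

theorem ok_iff {n : ℕ} {T : List (List Bool)} (hT : ∀ c ∈ T, c.length = n) (d a : ℕ) :
    Ok n T (Nat.pair d a) ↔ (2 ^ a ≤ (nbr (fs n T) d).card ∧
      (nbr (fs n T) d).card < 2 ^ (a + 1)) := by
  unfold Ok
  simp only [Nat.unpair_pair]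
  rw [nc_eq hT]

theorem lin_of_good {n t : ℕ} {T : List (List Bool)} (h : Good n t T) : Lin (fs n T) := by
  obtain ⟨h1, h2, h3, -⟩ := h
  constructor
  · cases T with
    | nil => simp at h1
    | cons c T =>
      obtain ⟨x, hx⟩ := PC.exists_ofFn c (h2 c (by simp))
      exact ⟨x, mem_fs.2 (by rw [← hx]; simp)⟩
  · intro x hx y hy
    obtain ⟨c, hc, hc'⟩ := h3 _ (mem_fs.1 hx) _ (mem_fs.1 hy)
    rw [mem_fs, ← lxor_ofFn, ← hc']
    exact hc

theorem fs_toList {n : ℕ} (S : Finset (Fin n → Bool)) :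
    fs n (S.toList.map List.ofFn) = S := by
  ext x
  rw [mem_fs, List.mem_map]
  constructor
  · rintro ⟨y, hy, h⟩
    rw [← List.ofFn_injective h]
    exact Finset.mem_toList.1 hy
  · intro hx
    exact ⟨x, Finset.mem_toList.2 hx, rfl⟩

theorem nbr_card_pos {n : ℕ} {S : Finset (Fin n → Bool)} (hS : S.Nonempty) (d : ℕ) :
    0 < (nbr S d).card := by
  obtain ⟨x, hx⟩ := hS
  exact Finset.card_pos.2 ⟨x, mem_nbr.2 ⟨x, hx, by simp⟩⟩

theorem good_of_lin {n : ℕ} {S : Finset (Fin n → Bool)} (hS : Lin S) (d₁ d₂ d₃ : ℕ) :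
    Good n (Nat.pair (Nat.pair d₁ (Nat.log 2 (nbr S d₁).card))
      (Nat.pair (Nat.pair d₂ (Nat.log 2 (nbr S d₂).card))
        (Nat.pair d₃ (Nat.log 2 (nbr S d₃).card)))) (S.toList.map List.ofFn) := by
  have hT : ∀ c ∈ S.toList.map List.ofFn, c.length = n := by
    intro c hc
    rw [List.mem_map] at hc
    obtain ⟨x, _, rfl⟩ := hc
    exact List.length_ofFn
  have hok : ∀ d, Ok n (S.toList.map List.ofFn) (Nat.pair d (Nat.log 2 (nbr S d).card)) := by
    intro d
    rw [ok_iff hT, fs_toList]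
    have h0 := nbr_card_pos hS.1 d
    exact ⟨Nat.pow_log_le_self 2 h0.ne', Nat.lt_pow_succ_log_self (by norm_num) _⟩
  refine ⟨?_, hT, ?_, ?_, ?_, ?_⟩
  · rw [List.length_map, Finset.length_toList]
    exact (Finset.card_pos.2 hS.1).ne'
  · intro a ha b hb
    rw [List.mem_map] at ha hb
    obtain ⟨x, hx, rfl⟩ := ha
    obtain ⟨y, hy, rfl⟩ := hb
    refine ⟨List.ofFn (bx x y), ?_, ?_⟩
    · exact List.mem_map.2 ⟨_, Finset.mem_toList.2
        (hS.2 x (Finset.mem_toList.1 hx) y (Finset.mem_toList.1 hy)), rfl⟩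
    · exact (lxor_ofFn x y).symm
  · simp only [Nat.unpair_pair]; exact hok d₁
  · simp only [Nat.unpair_pair]; exact hok d₂
  · simp only [Nat.unpair_pair]; exact hok d₃

theorem log_nbr_le {n : ℕ} (S : Finset (Fin n → Bool)) (d : ℕ) :
    Nat.log 2 (nbr S d).card ≤ n := by
  have h1 : (nbr S d).card ≤ 2 ^ n := by
    refine (Finset.card_le_univ _).trans ?_
    simp
  calc Nat.log 2 (nbr S d).card ≤ Nat.log 2 (2 ^ n) := Nat.log_mono_right h1
    _ = n := Nat.log_pow (by norm_num) n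

theorem log_eq {A a : ℕ} (h1 : 2 ^ a ≤ A) (h2 : A < 2 ^ (a + 1)) : Nat.log 2 A = a :=
  (Nat.log_eq_iff (Or.inr ⟨by norm_num, by have : 0 < 2 ^ a := by positivity
                                           omega⟩)).2 ⟨h1, h2⟩

end TD

open TD in
theorem descr_lin {U : List Bool →. List Bool} (hU : Optimal U) :
    ∃ c : ℕ, ∀ (n : ℕ) (S : Finset (Fin n → Bool)), Lin S → ∀ d₁ d₂ d₃ : ℕ,
      ∃ T : Finset (Fin n → Bool), Lin T ∧
      Nat.log 2 (nbr T d₁).card = Nat.log 2 (nbr S d₁).card ∧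
      Nat.log 2 (nbr T d₂).card = Nat.log 2 (nbr S d₂).card ∧
      Nat.log 2 (nbr T d₃).card = Nat.log 2 (nbr S d₃).card ∧
      ∀ j s N : ℕ, n < 2 ^ s → d₁ < 2 ^ s → d₂ < 2 ^ s → d₃ < 2 ^ s → j < 2 ^ s →
        (nbr T j).card ≤ 2 ^ N →
        ∀ y ∈ nbr T j, C U (List.ofFn y) ≤ N + 64 * s + c := by
  classical
  obtain ⟨c, hc⟩ := description hU Q primrec_Q
  refine ⟨c, fun n S hS d₁ d₂ d₃ => ?_⟩
  set a₁ := Nat.log 2 (nbr S d₁).card with ha₁
  set a₂ := Nat.log 2 (nbr S d₂).card with ha₂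
  set a₃ := Nat.log 2 (nbr S d₃).card with ha₃
  set t := Nat.pair (Nat.pair d₁ a₁) (Nat.pair (Nat.pair d₂ a₂) (Nat.pair d₃ a₃)) with ht
  have hex : ∃ k, Good n t (PC.D k) := by
    refine ⟨Encodable.encode (S.toList.map List.ofFn), ?_⟩
    unfold PC.D
    rw [Encodable.encodek]
    exact good_of_lin hS d₁ d₂ d₃
  set k₀ := Nat.find hex with hk₀
  have hgood : Good n t (PC.D k₀) := Nat.find_spec hex
  have hmin : ∀ k' ∈ List.range k₀, ¬ Good n t (PC.D k') := fun k' hk' =>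
    Nat.find_min hex (List.mem_range.1 hk')
  have hT := hgood.2.1
  obtain ⟨-, -, -, hok1, hok2, hok3⟩ := hgood
  rw [ht] at hok1 hok2 hok3
  simp only [Nat.unpair_pair] at hok1 hok2 hok3
  rw [ok_iff hT] at hok1 hok2 hok3
  have hgood : Good n t (PC.D k₀) := Nat.find_spec hex
  refine ⟨fs n (PC.D k₀), lin_of_good hgood, log_eq hok1.1 hok1.2, log_eq hok2.1 hok2.2,
    log_eq hok3.1 hok3.2, ?_⟩
  intro j s N hn h1 h2 h3 hj hN y hy
  have hQ : ∀ (y' : List Bool) (k : ℕ), Q (Nat.pair (Nat.pair n t) j) y' k ↔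
      (y'.length = n ∧ k = k₀ ∧ ∃ c ∈ PC.D k₀, ldist c y' ≤ j) := by
    intro y' k
    unfold Q
    simp only [Nat.unpair_pair]
    constructor
    · rintro ⟨h1, h2, h3, h4⟩
      have hk : k = k₀ := by
        apply le_antisymm
        · by_contra hlt
          exact h3 k₀ (List.mem_range.2 (not_le.1 hlt)) hgood
        · exact Nat.find_min' hex h2
      exact ⟨h1, hk, hk ▸ h4⟩
    · rintro ⟨h1, rfl, h4⟩
      exact ⟨h1, hgood, hmin, h4⟩
  have key := hc (32 * s) N (Nat.pair (Nat.pair n t) j) (List.ofFn y)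
    ((nbr (fs n (PC.D k₀)) j).image List.ofFn) ?_ ?_ ?_ ?_
  · calc C U (List.ofFn y) ≤ N + 2 * (32 * s) + c := key
      _ = N + 64 * s + c := by ring
  · have hmono : ∀ {a b : ℕ}, a ≤ b → (2 : ℕ) ^ a ≤ 2 ^ b := fun h =>
      Nat.pow_le_pow_right (by norm_num) h
    have b1 : a₁ < 2 ^ s := lt_of_le_of_lt (log_nbr_le S d₁) hn
    have b2 : a₂ < 2 ^ s := lt_of_le_of_lt (log_nbr_le S d₂) hn
    have b3 : a₃ < 2 ^ s := lt_of_le_of_lt (log_nbr_le S d₃) hn
    have p1 := PC.pair_lt h1 b1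
    have p2 := PC.pair_lt h2 b2
    have p3 := PC.pair_lt h3 b3
    have p23 := PC.pair_lt p2 p3
    have pt : t < 2 ^ (2 * (2 * (2 * s))) :=
      PC.pair_lt (lt_of_lt_of_le p1 (hmono (by omega))) p23
    have pnt := PC.pair_lt (lt_of_lt_of_le hn (hmono (by omega : s ≤ 2 * (2 * (2 * s))))) pt
    have pf := PC.pair_lt pnt (lt_of_lt_of_le hj (hmono (by omega :
      s ≤ 2 * (2 * (2 * (2 * s))))))
    refine lt_of_lt_of_le pf (hmono (by omega))
  · exact ⟨k₀, (hQ _ _).2 ⟨List.length_ofFn, rfl, (near_iff hT y j).2 hy⟩⟩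
  · intro y' k hk
    obtain ⟨h1, _, h3⟩ := (hQ _ _).1 hk
    obtain ⟨y'', rfl⟩ := PC.exists_ofFn y' h1
    rw [mem_image]
    exact ⟨y'', (near_iff hT y'' j).1 h3, rfl⟩
  · exact Finset.card_image_le.trans hN

end Pool.Agent.Lib.MP_f4f1a8_lc.NC
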