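import Mathlib

/-! MP_f4f1a8_lc, nonconcavity, row Assign: a random map by exponential moments. -/

namespace Pool.Agent.Lib.MP_f4f1a8_lc.NC

open Finset

/-- the sum over all maps of a product over the points -/
theorem assign_sum_prod {U J : Type*} [Fintype U] [DecidableEq U] [Fintype J]
    (g : U → J → ℝ) : ∑ f : U → J, ∏ u, g u (f u) = ∏ u, ∑ z, g u z := by
  have h := Finset.prod_univ_sum (fun _ : U => (univ : Finset J)) (fun u z => g u z)
  rw [Fintype.piFinset_univ] at h
  exact h.symm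

theorem assign_one (r N : ℕ) (hN : 0 < N) :
    ∑ f : Fin N × Fin (3 * r) → Fin (3 * N),
      ∑ j, (2 : ℝ) ^ (univ.filter (fun u => f u = j)).card ≤
      ((3 * N : ℕ) : ℝ) ^ (N * (3 * r)) * (3 * N * 3 ^ r) := by
  rw [sum_comm]
  have hM : (0 : ℝ) < ((3 * N : ℕ) : ℝ) := by
    have : 0 < 3 * N := by omega
    exact_mod_cast this
  have h1 : ∀ j : Fin (3 * N), ∑ f : Fin N × Fin (3 * r) → Fin (3 * N),
      (2 : ℝ) ^ (univ.filter (fun u => f u = j)).card ≤
      ((3 * N : ℕ) : ℝ) ^ (N * (3 * r)) * 3 ^ r := by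
    intro j
    have h2 : ∀ f : Fin N × Fin (3 * r) → Fin (3 * N),
        (2 : ℝ) ^ (univ.filter (fun u => f u = j)).card =
          ∏ u, (if f u = j then (2 : ℝ) else 1) := by
      intro f
      rw [prod_ite, prod_const, prod_const_one, mul_one]
    simp_rw [h2]
    rw [assign_sum_prod (fun _ z => if z = j then (2 : ℝ) else 1)]
    have h3 : ∑ z : Fin (3 * N), (if z = j then (2 : ℝ) else 1) = ((3 * N : ℕ) : ℝ) + 1 := by
      have h4 : ∀ z : Fin (3 * N), (if z = j then (2 : ℝ) else 1) =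
          1 + (if z = j then (1 : ℝ) else 0) := by
        intro z
        split_ifs <;> norm_num
      simp_rw [h4]
      rw [sum_add_distrib, sum_const, card_univ, Fintype.card_fin, nsmul_eq_mul, mul_one,
        Finset.sum_ite_eq' univ j, if_pos (mem_univ j)]
    rw [h3, prod_const, card_univ, Fintype.card_prod, Fintype.card_fin, Fintype.card_fin]
    have h5 : ((3 * N : ℕ) : ℝ) + 1 ≤
        ((3 * N : ℕ) : ℝ) * Real.exp (1 / ((3 * N : ℕ) : ℝ)) := by
      have h6 := Real.add_one_le_exp (1 / ((3 * N : ℕ) : ℝ))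
      have h7 := mul_le_mul_of_nonneg_left h6 hM.le
      refine le_trans (le_of_eq ?_) h7
      field_simp
      ring
    calc (((3 * N : ℕ) : ℝ) + 1) ^ (N * (3 * r))
        ≤ (((3 * N : ℕ) : ℝ) * Real.exp (1 / ((3 * N : ℕ) : ℝ))) ^ (N * (3 * r)) :=
          pow_le_pow_left₀ (by positivity) h5 _
      _ = ((3 * N : ℕ) : ℝ) ^ (N * (3 * r)) * Real.exp r := by
          rw [mul_pow, ← Real.exp_nat_mul]
          congr 2
          push_cast
          have : (N : ℝ) ≠ 0 := by
            have : (0 : ℝ) < N := by exact_mod_cast hN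
            exact this.ne'
          field_simp
      _ ≤ ((3 * N : ℕ) : ℝ) ^ (N * (3 * r)) * 3 ^ r := by
          refine mul_le_mul_of_nonneg_left ?_ (by positivity)
          have h8 : Real.exp (r : ℝ) = Real.exp 1 ^ r := by
            rw [← Real.exp_nat_mul, mul_one]
          rw [h8]
          refine pow_le_pow_left₀ (Real.exp_pos _).le ?_ r
          have := Real.exp_one_lt_d9
          linarith
  refine (sum_le_sum fun j _ => h1 j).trans (le_of_eq ?_)
  rw [sum_const, card_univ, Fintype.card_fin, nsmul_eq_mul]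
  push_cast
  ring

theorem assign_two (r N : ℕ) (hN : 0 < N) (A : Finset (Fin N)) (K : Finset (Fin (3 * N))) :
    ∑ f : Fin N × Fin (3 * r) → Fin (3 * N),
      Real.exp (((univ.filter (fun u => u.1 ∈ A ∧ f u ∈ K)).card : ℝ) / 16) ≤
      ((3 * N : ℕ) : ℝ) ^ (N * (3 * r)) *
        Real.exp (17 / 256 * (r * A.card * K.card / N)) := by
  have hNR : (0 : ℝ) < N := by exact_mod_cast hN
  have hM : (0 : ℝ) < ((3 * N : ℕ) : ℝ) := by
    have : 0 < 3 * N := by omega
    exact_mod_cast this
  set e : ℝ := Real.exp (1 / 16) with he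
  have he1 : e - 1 ≤ 17 / 256 := by
    have h := Real.abs_exp_sub_one_sub_id_le (x := (1 : ℝ) / 16) (by norm_num [abs_le])
    have h2 := (abs_le.1 h).2
    rw [he]
    norm_num at h2 ⊢
    linarith
  have he0 : 0 ≤ e - 1 := by
    have h := Real.add_one_le_exp ((1 : ℝ) / 16)
    rw [he]
    linarith
  have h2 : ∀ f : Fin N × Fin (3 * r) → Fin (3 * N),
      Real.exp (((univ.filter (fun u => u.1 ∈ A ∧ f u ∈ K)).card : ℝ) / 16) =
        ∏ u, (if u.1 ∈ A ∧ f u ∈ K then e else 1) := by
    intro f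
    rw [prod_ite, prod_const, prod_const_one, mul_one, he, ← Real.exp_nat_mul]
    congr 1
    ring
  simp_rw [h2]
  rw [assign_sum_prod (fun (u : Fin N × Fin (3 * r)) (z : Fin (3 * N)) =>
    if u.1 ∈ A ∧ z ∈ K then e else 1)]
  have h3 : ∀ u : Fin N × Fin (3 * r), ∑ z : Fin (3 * N), (if u.1 ∈ A ∧ z ∈ K then e else 1) ≤
      ((3 * N : ℕ) : ℝ) * Real.exp (if u.1 ∈ A then 17 / 256 * (K.card / (3 * N)) else 0) := by
    intro u
    by_cases hu : u.1 ∈ A
    · have h4 : ∀ z : Fin (3 * N), (if u.1 ∈ A ∧ z ∈ K then e else 1) =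
          1 + (if z ∈ K then (e - 1) else 0) := by
        intro z
        by_cases hz : z ∈ K
        · rw [if_pos ⟨hu, hz⟩, if_pos hz]
          ring
        · rw [if_neg (fun h => hz h.2), if_neg hz]
          ring
      simp_rw [h4]
      rw [sum_add_distrib, sum_const, card_univ, Fintype.card_fin, nsmul_eq_mul, mul_one,
        Finset.sum_ite_mem, univ_inter, sum_const, nsmul_eq_mul, if_pos hu]
      have h5 := Real.add_one_le_exp (17 / 256 * ((K.card : ℝ) / (3 * N)))
      have h6 := mul_le_mul_of_nonneg_left h5 hM.le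
      refine le_trans ?_ h6
      have h7 : (K.card : ℝ) * (e - 1) ≤ K.card * (17 / 256) :=
        mul_le_mul_of_nonneg_left he1 (by positivity)
      have h8 : ((3 * N : ℕ) : ℝ) * (17 / 256 * ((K.card : ℝ) / (3 * N)) + 1) =
          ((3 * N : ℕ) : ℝ) + K.card * (17 / 256) := by
        push_cast
        field_simp
        ring
      rw [h8]
      linarith
    · have h4 : ∀ z : Fin (3 * N), (if u.1 ∈ A ∧ z ∈ K then e else 1) = 1 := by
        intro z
        rw [if_neg (fun h => hu h.1)]
      simp_rw [h4]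
      rw [sum_const, card_univ, Fintype.card_fin, nsmul_eq_mul, if_neg hu, Real.exp_zero]
  have h9 : ∀ u ∈ (univ : Finset (Fin N × Fin (3 * r))),
      0 ≤ ∑ z : Fin (3 * N), (if u.1 ∈ A ∧ z ∈ K then e else 1) := by
    intro u _
    refine sum_nonneg fun z _ => ?_
    split_ifs
    · exact (Real.exp_pos _).le
    · exact zero_le_one
  refine (prod_le_prod h9 fun u _ => h3 u).trans (le_of_eq ?_)
  rw [prod_mul_distrib, prod_const, card_univ, Fintype.card_prod, Fintype.card_fin,
    Fintype.card_fin, ← Real.exp_sum]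
  congr 2
  rw [Fintype.sum_prod_type]
  have h10 : ∀ x ∈ (univ : Finset (Fin N)), ∑ y : Fin (3 * r),
      (if ((x, y) : Fin N × Fin (3 * r)).1 ∈ A then (17 / 256 * ((K.card : ℝ) / (3 * N))) else 0) =
      (if x ∈ A then (3 * r) * (17 / 256 * ((K.card : ℝ) / (3 * N))) else 0) := by
    intro x _
    by_cases hx : x ∈ A
    · simp [hx]
    · simp [hx]
  rw [sum_congr rfl h10, Finset.sum_ite_mem, univ_inter, sum_const, nsmul_eq_mul]
  field_simp

theorem exists_assign (r N : ℕ) (hr : 512 ≤ r) (hN : 0 < N) :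
    ∃ f : Fin N × Fin (3 * r) → Fin (3 * N),
      (∑ j, 2 ^ (univ.filter (fun u => f u = j)).card ≤ 6 * N * 3 ^ r) ∧
      ∀ (A : Finset (Fin N)) (K : Finset (Fin (3 * N))),
        8 * N * (univ.filter (fun u => u.1 ∈ A ∧ f u ∈ K)).card ≤
          8 * r * A.card * K.card + 3 * r * N ^ 2 := by
  have hNR : (1 : ℝ) ≤ N := by exact_mod_cast hN
  have hN0 : (0 : ℝ) < N := by linarith
  have hrR : (512 : ℝ) ≤ r := by exact_mod_cast hr
  have hM : (0 : ℝ) < ((3 * N : ℕ) : ℝ) := by
    have : 0 < 3 * N := by omega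
    exact_mod_cast this
  set T : ℝ := ((3 * N : ℕ) : ℝ) ^ (N * (3 * r)) with hT
  have hT0 : 0 < T := by positivity
  have hc : (0 : ℝ) < 6 * N * 3 ^ r := by positivity
  -- the second average
  have h2 : ∀ (A : Finset (Fin N)) (K : Finset (Fin (3 * N))),
      ∑ f : Fin N × Fin (3 * r) → Fin (3 * N),
        Real.exp ((((univ.filter (fun u => u.1 ∈ A ∧ f u ∈ K)).card : ℝ) -
          r * A.card * K.card / N - 3 * r * N / 8) / 16) ≤ T * Real.exp (-(6 * N)) := by
    intro A K
    set μ : ℝ := r * A.card * K.card / N with hμ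
    have hμ3 : μ ≤ 3 * r * N := by
      have hA : (A.card : ℝ) ≤ N := by
        have := card_le_univ A
        rw [Fintype.card_fin] at this
        exact_mod_cast this
      have hK : (K.card : ℝ) ≤ 3 * N := by
        have := card_le_univ K
        rw [Fintype.card_fin] at this
        exact_mod_cast this
      rw [hμ, div_le_iff₀ hN0]
      have h3 : (A.card : ℝ) * K.card ≤ N * (3 * N) :=
        mul_le_mul hA hK (by positivity) (by positivity)
      have h4 : (r : ℝ) * ((A.card : ℝ) * K.card) ≤ r * (N * (3 * N)) :=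
        mul_le_mul_of_nonneg_left h3 (by positivity)
      nlinarith
    have h3 : ∀ f : Fin N × Fin (3 * r) → Fin (3 * N),
        Real.exp ((((univ.filter (fun u => u.1 ∈ A ∧ f u ∈ K)).card : ℝ) - μ - 3 * r * N / 8)
          / 16) =
        Real.exp (((univ.filter (fun u => u.1 ∈ A ∧ f u ∈ K)).card : ℝ) / 16) *
          Real.exp (-(μ + 3 * r * N / 8) / 16) := by
      intro f
      rw [← Real.exp_add]
      congr 1
      ring
    simp_rw [h3]
    rw [← sum_mul]
    refine (mul_le_mul_of_nonneg_right (assign_two r N hN A K) (Real.exp_pos _).le).trans ?_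
    rw [← hT, ← hμ, mul_assoc, ← Real.exp_add]
    refine mul_le_mul_of_nonneg_left (Real.exp_le_exp.2 ?_) hT0.le
    nlinarith [mul_le_mul_of_nonneg_right hrR hN0.le]
  -- the sum of both
  have hex : ∃ f : Fin N × Fin (3 * r) → Fin (3 * N),
      (∑ j, (2 : ℝ) ^ (univ.filter (fun u => f u = j)).card) / (6 * N * 3 ^ r) +
      ∑ A : Finset (Fin N), ∑ K : Finset (Fin (3 * N)),
        Real.exp ((((univ.filter (fun u => u.1 ∈ A ∧ f u ∈ K)).card : ℝ) -
          r * A.card * K.card / N - 3 * r * N / 8) / 16) < 1 := by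
    by_contra hcon
    push Not at hcon
    have h3 : ∑ f : Fin N × Fin (3 * r) → Fin (3 * N), (1 : ℝ) ≤
        ∑ f : Fin N × Fin (3 * r) → Fin (3 * N),
        ((∑ j, (2 : ℝ) ^ (univ.filter (fun u => f u = j)).card) / (6 * N * 3 ^ r) +
        ∑ A : Finset (Fin N), ∑ K : Finset (Fin (3 * N)),
          Real.exp ((((univ.filter (fun u => u.1 ∈ A ∧ f u ∈ K)).card : ℝ) -
          r * A.card * K.card / N - 3 * r * N / 8) / 16)) :=
      sum_le_sum fun f _ => hcon f
    have h4 : ∑ f : Fin N × Fin (3 * r) → Fin (3 * N), (1 : ℝ) = T := by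
      rw [sum_const, card_univ, Fintype.card_fun, Fintype.card_fin, Fintype.card_prod,
        Fintype.card_fin, Fintype.card_fin, nsmul_eq_mul, mul_one, hT]
      push_cast
      rfl
    rw [h4, sum_add_distrib] at h3
    have h5 : ∑ f : Fin N × Fin (3 * r) → Fin (3 * N),
        (∑ j, (2 : ℝ) ^ (univ.filter (fun u => f u = j)).card) / (6 * N * 3 ^ r) ≤ T / 2 := by
      rw [← sum_div, div_le_iff₀ hc]
      refine (assign_one r N hN).trans (le_of_eq ?_)
      rw [← hT]
      ring
    have h6 : ∑ f : Fin N × Fin (3 * r) → Fin (3 * N),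
        ∑ A : Finset (Fin N), ∑ K : Finset (Fin (3 * N)),
          Real.exp ((((univ.filter (fun u => u.1 ∈ A ∧ f u ∈ K)).card : ℝ) -
          r * A.card * K.card / N - 3 * r * N / 8) / 16) ≤
        (2 : ℝ) ^ (N + 3 * N) * (T * Real.exp (-(6 * N))) := by
      rw [sum_comm]
      have h7 : ∀ A : Finset (Fin N), ∑ f : Fin N × Fin (3 * r) → Fin (3 * N),
          ∑ K : Finset (Fin (3 * N)),
          Real.exp ((((univ.filter (fun u => u.1 ∈ A ∧ f u ∈ K)).card : ℝ) -
          r * A.card * K.card / N - 3 * r * N / 8) / 16) ≤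
          (2 : ℝ) ^ (3 * N) * (T * Real.exp (-(6 * N))) := by
        intro A
        rw [sum_comm]
        refine (sum_le_sum fun K _ => h2 A K).trans (le_of_eq ?_)
        rw [sum_const, card_univ, Fintype.card_finset, Fintype.card_fin, nsmul_eq_mul]
        push_cast
        rfl
      refine (sum_le_sum fun A _ => h7 A).trans (le_of_eq ?_)
      rw [sum_const, card_univ, Fintype.card_finset, Fintype.card_fin, nsmul_eq_mul, pow_add]
      push_cast
      ring
    have h8 : (2 : ℝ) ^ (N + 3 * N) * Real.exp (-(6 * N)) ≤ 1 / 4 := by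
      have h9 : (2 : ℝ) ^ (N + 3 * N) = 16 ^ N := by
        rw [show N + 3 * N = 4 * N by ring, pow_mul]
        norm_num
      have h10 : Real.exp (-(6 * (N : ℝ))) = Real.exp (-6) ^ N := by
        rw [← Real.exp_nat_mul]
        congr 1
        ring
      rw [h9, h10, ← mul_pow]
      have h11 : (16 : ℝ) * Real.exp (-6) ≤ 1 / 4 := by
        have h12 : (64 : ℝ) ≤ Real.exp 6 := by
          have h13 : Real.exp 6 = Real.exp 1 ^ 6 := by
            rw [← Real.exp_nat_mul]
            norm_num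
          rw [h13]
          have h14 : (2 : ℝ) ≤ Real.exp 1 := by
            have := Real.exp_one_gt_d9
            linarith
          calc (64 : ℝ) = 2 ^ 6 := by norm_num
            _ ≤ Real.exp 1 ^ 6 := pow_le_pow_left₀ (by norm_num) h14 6
        rw [Real.exp_neg, ← div_eq_mul_inv, div_le_iff₀ (Real.exp_pos _)]
        linarith
      have h15 : (0 : ℝ) ≤ 16 * Real.exp (-6) := by positivity
      calc (16 * Real.exp (-6)) ^ N ≤ (16 * Real.exp (-6)) ^ 1 :=
            pow_le_pow_of_le_one h15 (by linarith) hN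
        _ ≤ 1 / 4 := by rw [pow_one]; exact h11
    have h16 : (2 : ℝ) ^ (N + 3 * N) * (T * Real.exp (-(6 * N))) ≤ T / 4 := by
      calc (2 : ℝ) ^ (N + 3 * N) * (T * Real.exp (-(6 * N))) =
          T * ((2 : ℝ) ^ (N + 3 * N) * Real.exp (-(6 * N))) := by ring
        _ ≤ T * (1 / 4) := mul_le_mul_of_nonneg_left h8 hT0.le
        _ = T / 4 := by ring
    linarith
  obtain ⟨f, hf⟩ := hex
  have hnn : ∀ (A : Finset (Fin N)) (K : Finset (Fin (3 * N))),
      0 ≤ Real.exp ((((univ.filter (fun u => u.1 ∈ A ∧ f u ∈ K)).card : ℝ) -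
          r * A.card * K.card / N - 3 * r * N / 8) / 16) := fun A K => (Real.exp_pos _).le
  have hX : 0 ≤ (∑ j, (2 : ℝ) ^ (univ.filter (fun u => f u = j)).card) / (6 * N * 3 ^ r) := by
    positivity
  have hY : 0 ≤ ∑ A : Finset (Fin N), ∑ K : Finset (Fin (3 * N)),
      Real.exp ((((univ.filter (fun u => u.1 ∈ A ∧ f u ∈ K)).card : ℝ) -
        r * A.card * K.card / N - 3 * r * N / 8) / 16) :=
    sum_nonneg fun A _ => sum_nonneg fun K _ => hnn A K
  refine ⟨f, ?_, ?_⟩
  · have h1 : (∑ j, (2 : ℝ) ^ (univ.filter (fun u => f u = j)).card) / (6 * N * 3 ^ r) ≤ 1 := by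
      linarith
    rw [div_le_one hc] at h1
    exact_mod_cast h1
  · intro A K
    have h1 : Real.exp ((((univ.filter (fun u => u.1 ∈ A ∧ f u ∈ K)).card : ℝ) -
        r * A.card * K.card / N - 3 * r * N / 8) / 16) < 1 := by
      have h3 : Real.exp ((((univ.filter (fun u => u.1 ∈ A ∧ f u ∈ K)).card : ℝ) -
          r * A.card * K.card / N - 3 * r * N / 8) / 16) ≤
          ∑ K : Finset (Fin (3 * N)),
          Real.exp ((((univ.filter (fun u => u.1 ∈ A ∧ f u ∈ K)).card : ℝ) -
          r * A.card * K.card / N - 3 * r * N / 8) / 16) :=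
        single_le_sum (f := fun K : Finset (Fin (3 * N)) =>
          Real.exp ((((univ.filter (fun u => u.1 ∈ A ∧ f u ∈ K)).card : ℝ) -
          r * A.card * K.card / N - 3 * r * N / 8) / 16)) (fun K _ => hnn A K) (mem_univ K)
      have h4 : ∑ K : Finset (Fin (3 * N)),
          Real.exp ((((univ.filter (fun u => u.1 ∈ A ∧ f u ∈ K)).card : ℝ) -
          r * A.card * K.card / N - 3 * r * N / 8) / 16) ≤
          ∑ A : Finset (Fin N), ∑ K : Finset (Fin (3 * N)),
          Real.exp ((((univ.filter (fun u => u.1 ∈ A ∧ f u ∈ K)).card : ℝ) -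
          r * A.card * K.card / N - 3 * r * N / 8) / 16) :=
        single_le_sum (f := fun A : Finset (Fin N) => ∑ K : Finset (Fin (3 * N)),
          Real.exp ((((univ.filter (fun u => u.1 ∈ A ∧ f u ∈ K)).card : ℝ) -
          r * A.card * K.card / N - 3 * r * N / 8) / 16))
          (fun A _ => sum_nonneg fun K _ => hnn A K) (mem_univ A)
      linarith
    rw [Real.exp_lt_one_iff] at h1
    have h5 : ((univ.filter (fun u => u.1 ∈ A ∧ f u ∈ K)).card : ℝ) ≤
        r * A.card * K.card / N + 3 * r * N / 8 := by linarith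
    have h6 : 8 * (N : ℝ) * ((univ.filter (fun u => u.1 ∈ A ∧ f u ∈ K)).card : ℝ) ≤
        8 * r * A.card * K.card + 3 * r * N ^ 2 := by
      have h7 := mul_le_mul_of_nonneg_left h5 (by positivity : (0 : ℝ) ≤ 8 * N)
      refine h7.trans (le_of_eq ?_)
      field_simp
    exact_mod_cast h6

end Pool.Agent.Lib.MP_f4f1a8_lc.NC
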