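import Mathlib

/-! MP_f4f1a8_lc, nonconcavity, row Coord: enough coordinates for all vectors carried by one of
the sets. -/

namespace Pool.Agent.Lib.MP_f4f1a8_lc.NC

open Finset

theorem exists_coord {α τ : Type} [Fintype α] [DecidableEq α] [Fintype τ]
    (F : τ → Finset α) (n : ℕ) (h : ∑ t, 2 ^ (F t).card ≤ n) :
    ∃ v : Fin n → (α → ZMod 2),
      (∀ k, v k = 0 ∨ ∃ t, ∀ a, a ∉ F t → v k a = 0) ∧
      ∀ t, ∀ w : α → ZMod 2, (∀ a, a ∉ F t → w a = 0) → ∃ k, v k = w := by
  classical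
  set G : Finset (α → ZMod 2) := univ.biUnion
    (fun t => (F t).powerset.image (fun B : Finset α => (fun a => if a ∈ B then (1 : ZMod 2) else 0)))
    with hG
  have hcard : G.card ≤ n := by
    refine le_trans card_biUnion_le (le_trans (sum_le_sum fun t _ => ?_) h)
    exact le_trans card_image_le (by rw [card_powerset])
  have hmem : ∀ w ∈ G, ∃ t, ∀ a, a ∉ F t → w a = 0 := by
    intro w hw
    rw [hG] at hw
    obtain ⟨t, -, ht⟩ := mem_biUnion.1 hw
    obtain ⟨B, hB, hBe⟩ := mem_image.1 ht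
    refine ⟨t, fun a ha => ?_⟩
    have : a ∉ B := fun hh => ha (mem_powerset.1 hB hh)
    rw [← hBe]
    simp [this]
  refine ⟨fun k => if hk : (k : ℕ) < G.card then (G.equivFin.symm ⟨k, hk⟩).1 else 0, ?_, ?_⟩
  · intro k
    by_cases hk : (k : ℕ) < G.card
    · right
      simp only [hk, dif_pos]
      exact hmem _ (G.equivFin.symm ⟨k, hk⟩).2
    · left
      simp only [hk, dif_neg, not_false_eq_true]
  · intro t w hw
    have hwG : w ∈ G := by
      rw [hG]
      refine mem_biUnion.2 ⟨t, mem_univ _, mem_image.2 ⟨(F t).filter (fun a => w a ≠ 0), ?_, ?_⟩⟩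
      · exact mem_powerset.2 (filter_subset _ _)
      · funext a
        by_cases ha : w a = 0
        · simp [ha]
        · have h1 : a ∈ F t := by
            by_contra hc
            exact ha (hw a hc)
          have h2 : w a = 1 := by
            have : ∀ z : ZMod 2, z ≠ 0 → z = 1 := by decide
            exact this _ ha
          simp [h1, h2]
    have hlt : (G.equivFin ⟨w, hwG⟩ : ℕ) < G.card := (G.equivFin ⟨w, hwG⟩).2
    refine ⟨⟨(G.equivFin ⟨w, hwG⟩ : ℕ), lt_of_lt_of_le hlt hcard⟩, ?_⟩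
    simp only [hlt, dif_pos]
    have : (⟨((G.equivFin ⟨w, hwG⟩ : Fin G.card) : ℕ), hlt⟩ : Fin G.card) = G.equivFin ⟨w, hwG⟩ := rfl
    rw [this, Equiv.symm_apply_apply]

end Pool.Agent.Lib.MP_f4f1a8_lc.NC
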