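import Pool.Agent.Lib.MP_f4f1a8_lc.NC.Assign

/-! MP_f4f1a8_lc, nonconcavity, row Design: rows and columns. -/

namespace Pool.Agent.Lib.MP_f4f1a8_lc.NC

open Finset

private theorem six_le {r : ℕ} (hr : 7 ≤ r) : 6 * 6 ^ r ≤ 2 ^ (3 * r) := by
  obtain ⟨k, rfl⟩ := Nat.exists_eq_add_of_le hr
  have h1 : (6 : ℕ) * 6 ^ 7 ≤ 8 ^ 7 := by norm_num
  have h2 : (6 : ℕ) ^ k ≤ 8 ^ k := Nat.pow_le_pow_left (by norm_num) k
  calc 6 * 6 ^ (7 + k) = (6 * 6 ^ 7) * 6 ^ k := by rw [pow_add]; ring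
    _ ≤ 8 ^ 7 * 8 ^ k := Nat.mul_le_mul h1 h2
    _ = 2 ^ (3 * (7 + k)) := by rw [← pow_add, pow_mul]; norm_num

/-- the sets of the design -/
private def FF {r N : ℕ} (f : Fin N × Fin (3 * r) → Fin (3 * N)) :
    (Fin N ⊕ Fin (3 * N)) → Finset ((Fin N × Fin (3 * r)) ⊕ (Fin (3 * N) × Fin r))
  | Sum.inl i => univ.filter (fun a => ∃ s, a = Sum.inl (i, s))
  | Sum.inr j => univ.filter (fun a => (∃ u, f u = j ∧ a = Sum.inl u) ∨ ∃ s, a = Sum.inr (j, s))

private theorem mem_inl {r N : ℕ} (f : Fin N × Fin (3 * r) → Fin (3 * N)) (i : Fin N)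
    (a : (Fin N × Fin (3 * r)) ⊕ (Fin (3 * N) × Fin r)) :
    a ∈ FF f (Sum.inl i) ↔ ∃ s, a = Sum.inl (i, s) := by
  simp [FF]

private theorem mem_inr {r N : ℕ} (f : Fin N × Fin (3 * r) → Fin (3 * N)) (j : Fin (3 * N))
    (a : (Fin N × Fin (3 * r)) ⊕ (Fin (3 * N) × Fin r)) :
    a ∈ FF f (Sum.inr j) ↔ (∃ u, f u = j ∧ a = Sum.inl u) ∨ ∃ s, a = Sum.inr (j, s) := by
  simp [FF]

private theorem card_inl {r N : ℕ} (f : Fin N × Fin (3 * r) → Fin (3 * N)) (i : Fin N) :
    (FF f (Sum.inl i)).card = 3 * r := by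
  have h : FF f (Sum.inl i) = (univ : Finset (Fin (3 * r))).map
      ⟨fun s => Sum.inl (i, s), fun s t h => by simpa using h⟩ := by
    ext a
    rw [mem_inl]
    simp only [mem_map, mem_univ, true_and, Function.Embedding.coeFn_mk]
    constructor
    · rintro ⟨s, rfl⟩; exact ⟨s, rfl⟩
    · rintro ⟨s, rfl⟩; exact ⟨s, rfl⟩
  rw [h, card_map, card_univ, Fintype.card_fin]

private theorem card_inr {r N : ℕ} (f : Fin N × Fin (3 * r) → Fin (3 * N)) (j : Fin (3 * N)) :
    (FF f (Sum.inr j)).card = (univ.filter (fun u => f u = j)).card + r := by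
  have h : FF f (Sum.inr j) = ((univ.filter (fun u => f u = j)).map
      ⟨Sum.inl, Sum.inl_injective⟩).disjUnion ((univ : Finset (Fin r)).map
      ⟨fun s => Sum.inr (j, s), fun s t h => by simpa using h⟩) (by
        rw [Finset.disjoint_left]
        intro a ha hb
        simp only [mem_map, mem_univ, true_and, mem_filter, Function.Embedding.coeFn_mk] at ha hb
        obtain ⟨u, _, rfl⟩ := ha
        obtain ⟨s, hs⟩ := hb
        simp at hs) := by
    ext a
    rw [mem_inr, mem_disjUnion]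
    simp only [mem_map, mem_univ, true_and, mem_filter, Function.Embedding.coeFn_mk]
    constructor
    · rintro (⟨u, hu, rfl⟩ | ⟨s, rfl⟩)
      · exact Or.inl ⟨u, hu, rfl⟩
      · exact Or.inr ⟨s, rfl⟩
    · rintro (⟨u, hu, rfl⟩ | ⟨s, rfl⟩)
      · exact Or.inl ⟨u, hu, rfl⟩
      · exact Or.inr ⟨s, rfl⟩
  rw [h, card_disjUnion, card_map, card_map, card_univ, Fintype.card_fin]

theorem exists_design (r N : ℕ) (hr : 512 ≤ r) (hN : 0 < N) :
    ∃ F : (Fin N ⊕ Fin (3 * N)) → Finset ((Fin N × Fin (3 * r)) ⊕ (Fin (3 * N) × Fin r)),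
      (∑ t, 2 ^ (F t).card ≤ 2 * N * 2 ^ (3 * r)) ∧
      (∃ T : Finset (Fin N ⊕ Fin (3 * N)), T.card = N ∧ 3 * r * N ≤ (T.biUnion F).card) ∧
      (∃ T : Finset (Fin N ⊕ Fin (3 * N)), T.card = 3 * N ∧
        6 * r * N ≤ (T.biUnion F).card) ∧
      ∀ T : Finset (Fin N ⊕ Fin (3 * N)), T.card ≤ 2 * N →
        8 * (T.biUnion F).card ≤ 35 * r * N := by
  obtain ⟨f, hf1, hf2⟩ := exists_assign r N hr hN
  refine ⟨FF f, ?_, ?_, ?_, ?_⟩
  · rw [Fintype.sum_sum_type]
    have h1 : ∑ i : Fin N, 2 ^ (FF f (Sum.inl i)).card = N * 2 ^ (3 * r) := by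
      simp only [card_inl, sum_const, card_univ, Fintype.card_fin, smul_eq_mul]
    have h2 : ∑ j : Fin (3 * N), 2 ^ (FF f (Sum.inr j)).card =
        2 ^ r * ∑ j, 2 ^ (univ.filter (fun u => f u = j)).card := by
      rw [mul_sum]
      refine sum_congr rfl fun j _ => ?_
      rw [card_inr, pow_add, mul_comm]
    rw [h1, h2]
    have h3 : 2 ^ r * ∑ j, 2 ^ (univ.filter (fun u => f u = j)).card ≤
        2 ^ r * (6 * N * 3 ^ r) := Nat.mul_le_mul_left _ hf1
    have h4 : 2 ^ r * (6 * N * 3 ^ r) = N * (6 * 6 ^ r) := by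
      have : (6 : ℕ) ^ r = 2 ^ r * 3 ^ r := by
        rw [← mul_pow]
        norm_num
      rw [this]; ring
    have h5 : N * (6 * 6 ^ r) ≤ N * 2 ^ (3 * r) := Nat.mul_le_mul_left _ (six_le (by omega))
    have h6 : 2 * N * 2 ^ (3 * r) = N * 2 ^ (3 * r) + N * 2 ^ (3 * r) := by ring
    omega
  · refine ⟨univ.map ⟨Sum.inl, Sum.inl_injective⟩, by rw [card_map, card_univ, Fintype.card_fin],
      ?_⟩
    have h1 : (univ : Finset (Fin N × Fin (3 * r))).map ⟨Sum.inl, Sum.inl_injective⟩ ⊆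
        ((univ : Finset (Fin N)).map ⟨Sum.inl, Sum.inl_injective⟩).biUnion (FF f) := by
      intro a ha
      simp only [mem_map, mem_univ, true_and, Function.Embedding.coeFn_mk] at ha
      obtain ⟨u, rfl⟩ := ha
      rw [mem_biUnion]
      refine ⟨Sum.inl u.1, ?_, ?_⟩
      · rw [mem_map]; exact ⟨u.1, mem_univ _, rfl⟩
      · rw [mem_inl]; exact ⟨u.2, rfl⟩
    have h2 := card_le_card h1
    rw [card_map, card_univ, Fintype.card_prod, Fintype.card_fin, Fintype.card_fin] at h2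
    calc 3 * r * N = N * (3 * r) := by ring
      _ ≤ _ := h2
  · refine ⟨univ.map ⟨Sum.inr, Sum.inr_injective⟩, by rw [card_map, card_univ, Fintype.card_fin],
      ?_⟩
    have h1 : (univ : Finset ((Fin N × Fin (3 * r)) ⊕ (Fin (3 * N) × Fin r))) ⊆
        ((univ : Finset (Fin (3 * N))).map ⟨Sum.inr, Sum.inr_injective⟩).biUnion (FF f) := by
      intro a _
      rw [mem_biUnion]
      rcases a with u | ⟨j, s⟩
      · refine ⟨Sum.inr (f u), ?_, ?_⟩
        · rw [mem_map]; exact ⟨f u, mem_univ _, rfl⟩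
        · rw [mem_inr]; exact Or.inl ⟨u, rfl, rfl⟩
      · refine ⟨Sum.inr j, ?_, ?_⟩
        · rw [mem_map]; exact ⟨j, mem_univ _, rfl⟩
        · rw [mem_inr]; exact Or.inr ⟨s, rfl⟩
    have h2 := card_le_card h1
    rw [card_univ, Fintype.card_sum, Fintype.card_prod, Fintype.card_prod, Fintype.card_fin,
      Fintype.card_fin, Fintype.card_fin, Fintype.card_fin] at h2
    calc 6 * r * N = N * (3 * r) + 3 * N * r := by ring
      _ ≤ _ := h2
  · intro T hT
    set K1 : Finset (Fin N) := univ.filter (fun i => Sum.inl i ∈ T) with hK1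
    set K2 : Finset (Fin (3 * N)) := univ.filter (fun j => Sum.inr j ∈ T) with hK2
    have hcardT : K1.card + K2.card = T.card := by
      have h : T = (K1.map ⟨Sum.inl, Sum.inl_injective⟩).disjUnion
          (K2.map ⟨Sum.inr, Sum.inr_injective⟩) (by
            rw [Finset.disjoint_left]
            intro a ha hb
            simp only [mem_map, Function.Embedding.coeFn_mk] at ha hb
            obtain ⟨u, _, rfl⟩ := ha
            obtain ⟨s, _, hs⟩ := hb
            simp at hs) := by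
        ext a
        rw [mem_disjUnion]
        simp only [mem_map, Function.Embedding.coeFn_mk, hK1, hK2, mem_filter, mem_univ, true_and]
        rcases a with i | j
        · simp
        · simp
      conv_rhs => rw [h]
      rw [card_disjUnion, card_map, card_map]
    have hk1 : K1.card ≤ N := by
      have := card_le_univ K1
      rwa [Fintype.card_fin] at this
    set cnt : ℕ := (univ.filter (fun u : Fin N × Fin (3 * r) => u.1 ∈ K1ᶜ ∧ f u ∈ K2)).card
      with hcnt
    have hc := hf2 K1ᶜ K2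
    rw [← hcnt, card_compl, Fintype.card_fin] at hc
    have hsub : T.biUnion (FF f) ⊆
        ((K1 ×ˢ (univ : Finset (Fin (3 * r)))).map ⟨Sum.inl, Sum.inl_injective⟩ ∪
          (univ.filter (fun u : Fin N × Fin (3 * r) => u.1 ∈ K1ᶜ ∧ f u ∈ K2)).map
            ⟨Sum.inl, Sum.inl_injective⟩) ∪
          ((K2 ×ˢ (univ : Finset (Fin r))).map ⟨Sum.inr, Sum.inr_injective⟩) := by
      intro a ha
      rw [mem_biUnion] at ha
      obtain ⟨t, ht, hat⟩ := ha
      rw [mem_union, mem_union]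
      rcases t with i | j
      · rw [mem_inl] at hat
        obtain ⟨s, rfl⟩ := hat
        refine Or.inl (Or.inl ?_)
        rw [mem_map]
        exact ⟨(i, s), mem_product.2 ⟨mem_filter.2 ⟨mem_univ _, ht⟩, mem_univ _⟩, rfl⟩
      · rw [mem_inr] at hat
        rcases hat with ⟨u, hu, rfl⟩ | ⟨s, rfl⟩
        · by_cases hu1 : u.1 ∈ K1
          · refine Or.inl (Or.inl ?_)
            rw [mem_map]
            exact ⟨u, mem_product.2 ⟨hu1, mem_univ _⟩, rfl⟩
          · refine Or.inl (Or.inr ?_)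
            rw [mem_map]
            refine ⟨u, mem_filter.2 ⟨mem_univ _, mem_compl.2 hu1, ?_⟩, rfl⟩
            rw [hu]
            exact mem_filter.2 ⟨mem_univ _, ht⟩
        · refine Or.inr ?_
          rw [mem_map]
          exact ⟨(j, s), mem_product.2 ⟨mem_filter.2 ⟨mem_univ _, ht⟩, mem_univ _⟩, rfl⟩
    have hcard : (T.biUnion (FF f)).card ≤ K1.card * (3 * r) + cnt + K2.card * r := by
      refine (card_le_card hsub).trans ?_
      refine (card_union_le _ _).trans ?_
      have h1 := card_union_le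
        ((K1 ×ˢ (univ : Finset (Fin (3 * r)))).map
          (⟨Sum.inl, Sum.inl_injective⟩ : _ ↪ (Fin N × Fin (3 * r)) ⊕ (Fin (3 * N) × Fin r)))
        ((univ.filter (fun u : Fin N × Fin (3 * r) => u.1 ∈ K1ᶜ ∧ f u ∈ K2)).map
            ⟨Sum.inl, Sum.inl_injective⟩)
      rw [card_map, card_map, card_product, card_univ, Fintype.card_fin, ← hcnt] at h1
      rw [card_map ⟨Sum.inr, Sum.inr_injective⟩, card_product, card_univ, Fintype.card_fin]
      omega
    have hkk : K1.card + K2.card ≤ 2 * N := by omega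
    generalize (T.biUnion (FF f)).card = u at hcard ⊢
    generalize K1.card = k1 at *
    generalize K2.card = k2 at *
    obtain ⟨d, rfl⟩ := Nat.exists_eq_add_of_le hk1
    rw [Nat.add_sub_cancel_left] at hc
    have hfin : (k1 + d) * (8 * u) ≤ (k1 + d) * (35 * r * (k1 + d)) := by
      have e1 : (k1 + d) * (8 * u) ≤ 8 * (k1 + d) * (k1 * (3 * r) + cnt + k2 * r) := by
        nlinarith [hcard]
      have e2 : k2 ≤ k1 + 2 * d := by omega
      have e3 : r * (16 * d + 8 * k1) * k2 ≤ r * (16 * d + 8 * k1) * (k1 + 2 * d) :=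
        Nat.mul_le_mul_left _ e2
      nlinarith [e1, e3, hc, Nat.zero_le (r * (k1 * d))]
    exact le_of_mul_le_mul_left hfin hN

end Pool.Agent.Lib.MP_f4f1a8_lc.NC
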