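import Mathlib

/-! MP_f4f1a8_lc, nonconcavity, row Reach: the syndromes reached with d coordinates. -/

namespace Pool.Agent.Lib.MP_f4f1a8_lc.NC

open Finset

private lemma rc_zmod (z : ZMod 2) : z = 0 ∨ z = 1 := by
  revert z; decide

open Classical in
/-- the number of vectors carried by `B` -/
private lemma rc_supp {α : Type} [Fintype α] [DecidableEq α] (B : Finset α) :
    (univ.filter (fun w : α → ZMod 2 => ∀ a, a ∉ B → w a = 0)).card = 2 ^ B.card := by
  rw [← Finset.card_powerset]
  refine Finset.card_nbij' (fun w => univ.filter (fun a => w a ≠ 0))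
    (fun s a => if a ∈ s then 1 else 0) ?_ ?_ ?_ ?_
  · intro w hw
    have hw' := (Finset.mem_filter.1 hw).2
    rw [Finset.mem_coe, Finset.mem_powerset]
    intro a ha
    by_contra hB
    exact (Finset.mem_filter.1 ha).2 (hw' a hB)
  · intro s hs
    rw [Finset.mem_coe, Finset.mem_powerset] at hs
    rw [Finset.mem_coe, Finset.mem_filter]
    refine ⟨Finset.mem_univ _, fun a ha => ?_⟩
    exact if_neg fun h => ha (hs h)
  · intro w _
    funext a
    rcases rc_zmod (w a) with h | h
    · simp [h]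
    · simp [h]
  · intro s _
    ext a
    by_cases h : a ∈ s <;> simp [h]

private lemma rc_span {α τ : Type} [Fintype α] [DecidableEq α] [DecidableEq τ]
    (F : τ → Finset α) {n : ℕ} (v : Fin n → (α → ZMod 2))
    (hb : ∀ t, ∀ w : α → ZMod 2, (∀ a, a ∉ F t → w a = 0) → ∃ k, v k = w)
    (T : Finset τ) :
    ∀ w : α → ZMod 2, (∀ a, a ∉ T.biUnion F → w a = 0) →
      ∃ T' : Finset (Fin n), T'.card ≤ T.card ∧ ∑ k ∈ T', v k = w := by
  classical
  induction T using Finset.induction_on with
  | empty =>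
    intro w hw
    refine ⟨∅, le_refl _, ?_⟩
    rw [Finset.sum_empty]
    funext a
    exact (hw a (by simp)).symm
  | insert t T ht ih =>
    intro w hw
    obtain ⟨k, hk⟩ := hb t (fun a => if a ∈ F t then w a else 0) (fun a ha => if_neg ha)
    obtain ⟨T', hT', hsum⟩ := ih (fun a => if a ∈ F t then 0 else w a) (by
      intro a ha
      by_cases h : a ∈ F t
      · simp [h]
      · simp only [h, if_false]
        apply hw
        rw [Finset.biUnion_insert, Finset.mem_union, not_or]
        exact ⟨h, ha⟩)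
    have hw2 : v k + ∑ k ∈ T', v k = w := by
      rw [hk, hsum]
      funext a
      by_cases h : a ∈ F t <;> simp [h]
    rw [Finset.card_insert_of_notMem ht]
    by_cases hkT : k ∈ T'
    · refine ⟨T'.erase k, (Finset.card_erase_le).trans (by omega), ?_⟩
      have h1 := Finset.add_sum_erase T' v hkT
      have h2 : v k + v k = 0 := by
        funext a
        exact CharTwo.add_self_eq_zero _
      rw [← hw2, ← h1, ← add_assoc, h2, zero_add]
    · refine ⟨insert k T', by rw [Finset.card_insert_of_notMem hkT]; omega, ?_⟩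
      rw [Finset.sum_insert hkT]
      exact hw2

open Classical in
theorem reach_ge {α τ : Type} [Fintype α] [DecidableEq α] [Fintype τ] [DecidableEq τ]
    (F : τ → Finset α) {n : ℕ} (v : Fin n → (α → ZMod 2))
    (hb : ∀ t, ∀ w : α → ZMod 2, (∀ a, a ∉ F t → w a = 0) → ∃ k, v k = w)
    (T : Finset τ) :
    2 ^ (T.biUnion F).card ≤ (univ.filter (fun w : α → ZMod 2 =>
        ∃ T' : Finset (Fin n), T'.card ≤ T.card ∧ ∑ k ∈ T', v k = w)).card := by
  rw [← rc_supp]
  refine Finset.card_le_card ?_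
  intro w hw
  rw [Finset.mem_filter] at hw ⊢
  exact ⟨hw.1, rc_span F v hb T w hw.2⟩

open Classical in
theorem reach_le {α τ : Type} [Fintype α] [DecidableEq α] [Fintype τ] [DecidableEq τ]
    (F : τ → Finset α) {n : ℕ} (v : Fin n → (α → ZMod 2))
    (ha : ∀ k, v k = 0 ∨ ∃ t, ∀ a, a ∉ F t → v k a = 0)
    (d m : ℕ) (hm : ∀ T : Finset τ, T.card ≤ d → (T.biUnion F).card ≤ m) :
    (univ.filter (fun w : α → ZMod 2 =>
        ∃ T' : Finset (Fin n), T'.card ≤ d ∧ ∑ k ∈ T', v k = w)).card ≤
      2 ^ (Fintype.card τ + m) := by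
  set P : Finset (Finset τ) := univ.filter (fun T : Finset τ => T.card ≤ d) with hP
  have h1 : (univ.filter (fun w : α → ZMod 2 =>
        ∃ T' : Finset (Fin n), T'.card ≤ d ∧ ∑ k ∈ T', v k = w))
      ⊆ P.biUnion (fun T => univ.filter (fun w : α → ZMod 2 => ∀ a, a ∉ T.biUnion F → w a = 0)) := by
    intro w hw
    obtain ⟨T', hT', hsum⟩ := (Finset.mem_filter.1 hw).2
    have h2 : ∀ k : Fin n, ∃ t : Finset τ, t.card ≤ 1 ∧ ∀ a, a ∉ t.biUnion F → v k a = 0 := by
      intro k
      rcases ha k with h | ⟨t, ht⟩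
      · exact ⟨∅, by simp, fun a _ => by rw [h]; rfl⟩
      · exact ⟨{t}, by simp, fun a h => ht a (by simpa using h)⟩
    choose t ht1 ht2 using h2
    rw [Finset.mem_biUnion]
    refine ⟨T'.biUnion t, ?_, ?_⟩
    · rw [hP, Finset.mem_filter]
      refine ⟨Finset.mem_univ _, ?_⟩
      calc (T'.biUnion t).card ≤ T'.card * 1 :=
            Finset.card_biUnion_le_card_mul _ _ _ fun k _ => ht1 k
        _ ≤ d := by rw [mul_one]; exact hT'
    · rw [Finset.mem_filter]
      refine ⟨Finset.mem_univ _, fun a hna => ?_⟩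
      rw [← hsum, Finset.sum_apply]
      refine Finset.sum_eq_zero fun k hk => ht2 k a fun h => hna ?_
      rw [Finset.mem_biUnion] at h ⊢
      obtain ⟨s, hs, has⟩ := h
      exact ⟨s, Finset.mem_biUnion.2 ⟨k, hk, hs⟩, has⟩
  calc _ ≤ (P.biUnion (fun T => univ.filter
          (fun w : α → ZMod 2 => ∀ a, a ∉ T.biUnion F → w a = 0))).card := Finset.card_le_card h1
    _ ≤ P.card * 2 ^ m := by
        refine Finset.card_biUnion_le_card_mul _ _ _ fun T hT => ?_
        rw [rc_supp]
        exact Nat.pow_le_pow_right (by norm_num) (hm T (Finset.mem_filter.1 hT).2)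
    _ ≤ 2 ^ Fintype.card τ * 2 ^ m := by
        refine Nat.mul_le_mul_right _ ?_
        rw [← Fintype.card_finset, ← Finset.card_univ]
        exact Finset.card_le_card (Finset.filter_subset _ _)
    _ = 2 ^ (Fintype.card τ + m) := by rw [pow_add]

end Pool.Agent.Lib.MP_f4f1a8_lc.NC
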