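import Pool.Agent.Lib.MP_f4f1a8_lc.NC.Syn
import Pool.Agent.Lib.MP_f4f1a8_lc.NC.Coord
import Pool.Agent.Lib.MP_f4f1a8_lc.NC.Reach
import Pool.Agent.Lib.MP_f4f1a8_lc.NC.Design

/-! MP_f4f1a8_lc, nonconcavity, row Code3: a linear code with a convex kink. -/

namespace Pool.Agent.Lib.MP_f4f1a8_lc.NC

open Finset

/-- The number of elements with a property does not depend on the instances. -/
theorem card_filter_inst {β : Type} (i₁ i₂ : Fintype β) (p : β → Prop)
    {d₁ d₂ : DecidablePred p} :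
    (@Finset.filter β p d₁ (@Finset.univ β i₁)).card =
      (@Finset.filter β p d₂ (@Finset.univ β i₂)).card := by
  have h1 : i₁ = i₂ := Subsingleton.elim _ _
  subst h1
  have h2 : d₁ = d₂ := Subsingleton.elim _ _
  subst h2
  rfl

theorem exists_lin_aux {α τ : Type} [Fintype α] [DecidableEq α] [Fintype τ] [DecidableEq τ]
    (F : τ → Finset α) (n : ℕ) (h : ∑ t, 2 ^ (F t).card ≤ n) :
    ∃ S : Finset (Fin n → Bool), Lin S ∧
      (∀ T : Finset τ, S.card * 2 ^ (T.biUnion F).card ≤ (nbr S T.card).card) ∧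
      ∀ d m : ℕ, (∀ T : Finset τ, T.card ≤ d → (T.biUnion F).card ≤ m) →
        (nbr S d).card ≤ S.card * 2 ^ (Fintype.card τ + m) := by
  obtain ⟨v, ha, hb⟩ := exists_coord F n h
  obtain ⟨S, hL, hS⟩ := syn_count v
  refine ⟨S, hL, fun T => ?_, fun d m hm => ?_⟩
  · rw [hS T.card]
    refine Nat.mul_le_mul_left _ ((reach_ge F v hb T).trans (le_of_eq ?_))
    exact card_filter_inst _ _ _
  · rw [hS d]
    refine Nat.mul_le_mul_left _ ((le_of_eq ?_).trans (reach_le F v ha d m hm))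
    exact card_filter_inst _ _ _

theorem exists_lin (N n : ℕ) (hN : 0 < N) (h : 2 * N * 2 ^ 1536 ≤ n) :
    ∃ S : Finset (Fin n → Bool), Lin S ∧
      S.card * 2 ^ (1536 * N) ≤ (nbr S N).card ∧
      S.card * 2 ^ (3072 * N) ≤ (nbr S (3 * N)).card ∧
      (nbr S (2 * N)).card ≤ S.card * 2 ^ (2244 * N) := by
  obtain ⟨r, hr⟩ : ∃ r : ℕ, r = 512 := ⟨_, rfl⟩
  obtain ⟨F, h1, ⟨T1, hT1, hT1'⟩, ⟨T3, hT3, hT3'⟩, h2⟩ := exists_design r N hr.ge hN
  have h3 : 3 * r = 1536 := by omega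
  have h1' : ∑ t, 2 ^ (F t).card ≤ n := by
    refine h1.trans ?_
    rw [h3]
    exact h
  obtain ⟨S, hL, hge, hle⟩ := exists_lin_aux F n h1'
  refine ⟨S, hL, ?_, ?_, ?_⟩
  · have h4 := hge T1
    rw [hT1] at h4
    refine le_trans (Nat.mul_le_mul_left _ (Nat.pow_le_pow_right (by norm_num) ?_)) h4
    rw [← h3]
    exact hT1'
  · have h4 := hge T3
    rw [hT3] at h4
    refine le_trans (Nat.mul_le_mul_left _ (Nat.pow_le_pow_right (by norm_num) ?_)) h4
    have h5 : 6 * r = 3072 := by omega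
    rw [← h5]
    exact hT3'
  · have h4 := hle (2 * N) (2240 * N) (fun T hT => by
      have h5 := h2 T hT
      have h6 : 35 * r = 8 * 2240 := by omega
      rw [h6, mul_assoc] at h5
      exact Nat.le_of_mul_le_mul_left h5 (by norm_num))
    have h5 : Fintype.card (Fin N ⊕ Fin (3 * N)) + 2240 * N = 2244 * N := by
      rw [Fintype.card_sum, Fintype.card_fin, Fintype.card_fin]
      ring
    rw [h5] at h4
    exact h4

end Pool.Agent.Lib.MP_f4f1a8_lc.NC
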