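import Pool.Agent.Lib.MP_f4f1a8_lc.NC.Defs

/-! MP_f4f1a8_lc, nonconcavity, row Homog: subsets of a linear code have large neighbourhoods. -/

namespace Pool.Agent.Lib.MP_f4f1a8_lc.NC

open Finset

private lemma bx_cancel {n : ℕ} (x y : Fin n → Bool) : bx x (bx x y) = y := by
  funext i
  simp only [bx]
  rw [← Bool.xor_assoc, Bool.xor_self, Bool.false_xor]

private lemma bx_inj {n : ℕ} (s : Fin n → Bool) : Function.Injective (bx s) := by
  intro x y h
  rw [← bx_cancel s x, h, bx_cancel]

private lemma dist_bx {n : ℕ} (s x y : Fin n → Bool) :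
    hammingDist x (bx (bx s x) y) = hammingDist s y := by
  have key : ∀ a b c : Bool, (b ≠ xor (xor a b) c) ↔ a ≠ c := by decide
  unfold hammingDist
  exact congrArg Finset.card (Finset.filter_congr fun i _ => key (s i) (x i) (y i))

theorem homog {n : ℕ} {S X : Finset (Fin n → Bool)} (hS : Lin S) (hX : X ⊆ S) (d : ℕ) :
    X.card * (nbr S d).card ≤ S.card * (nbr X d).card := by
  classical
  have h1 : ∀ y ∈ nbr S d, X.card ≤ (S.filter fun s => bx s y ∈ nbr X d).card := by
    intro y hy
    simp only [nbr, mem_filter, mem_univ, true_and] at hy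
    obtain ⟨s0, hs0, hd⟩ := hy
    refine Finset.card_le_card_of_injOn (fun x => bx s0 x) ?_ ?_
    · intro x hx
      rw [Finset.mem_coe] at hx
      rw [Finset.mem_coe, mem_filter]
      refine ⟨hS.2 s0 hs0 x (hX hx), ?_⟩
      simp only [nbr, mem_filter, mem_univ, true_and]
      exact ⟨x, hx, by rw [dist_bx]; exact hd⟩
    · intro x _ x' _ h
      exact bx_inj s0 h
  have h2 : ∀ s ∈ S, ((nbr S d).filter fun y => bx s y ∈ nbr X d).card ≤ (nbr X d).card := by
    intro s _
    refine Finset.card_le_card_of_injOn (fun y => bx s y) ?_ ?_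
    · intro y hy
      rw [Finset.mem_coe, mem_filter] at hy
      exact hy.2
    · intro y _ y' _ h
      exact bx_inj s h
  have h3 : ∑ y ∈ nbr S d, (S.filter fun s => bx s y ∈ nbr X d).card =
      ∑ s ∈ S, ((nbr S d).filter fun y => bx s y ∈ nbr X d).card := by
    simp only [Finset.card_filter]
    exact Finset.sum_comm
  calc X.card * (nbr S d).card = ∑ _y ∈ nbr S d, X.card := by
        rw [Finset.sum_const, smul_eq_mul, mul_comm]
    _ ≤ ∑ y ∈ nbr S d, (S.filter fun s => bx s y ∈ nbr X d).card := Finset.sum_le_sum h1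
    _ = ∑ s ∈ S, ((nbr S d).filter fun y => bx s y ∈ nbr X d).card := h3
    _ ≤ ∑ _s ∈ S, (nbr X d).card := Finset.sum_le_sum h2
    _ = S.card * (nbr X d).card := by rw [Finset.sum_const, smul_eq_mul]

end Pool.Agent.Lib.MP_f4f1a8_lc.NC
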