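import Pool.Agent.Lib.MP_f4f1a8_lc.Real
import Pool.Agent.Lib.MP_f4f1a8_lc.NC.Homog
import Pool.Agent.Lib.MP_f4f1a8_lc.NC.TDescr

/-! MP_f4f1a8_lc, nonconcavity, row Transfer (helper51): three values of the profile of a linear
code are three values of M. -/

namespace Pool.Agent.Lib.MP_f4f1a8_lc.NC

open Finset SelectAux

/-- Few points of a linear code have only simple points in their ball. -/
theorem few_simple {U : List Bool →. List Bool} (hU : Optimal U) {n : ℕ}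
    {T : Finset (Fin n → Bool)} (hT : Lin T) (d : ℕ) :
    4 * (T.filter (fun x => M U x d + 3 ≤ Nat.log 2 (nbr T d).card)).card ≤ T.card := by
  classical
  set X := T.filter (fun x => M U x d + 3 ≤ Nat.log 2 (nbr T d).card) with hX
  set A := Nat.log 2 (nbr T d).card with hA
  rcases X.eq_empty_or_nonempty with h0 | h0
  · rw [h0]; simp
  · obtain ⟨x₀, hx₀⟩ := h0
    have hA3 : 3 ≤ A := by
      have := (mem_filter.1 (hX ▸ hx₀)).2
      omega
    have h1 : (nbr X d).card < 2 ^ (A - 2) := by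
      apply card_lt_of_C hU
      intro y hy
      obtain ⟨x, hx, hxy⟩ := mem_nbr.1 hy
      have h2 := (mem_filter.1 hx).2
      have h3 : C U (List.ofFn y) ≤ M U x d := le_M hxy
      omega
    have h2 := homog hT (X := X) (filter_subset _ _) d
    have h3 : 2 ^ A ≤ (nbr T d).card := Nat.pow_log_le_self 2
      (TD.nbr_card_pos hT.1 d).ne'
    have h4 : X.card * 2 ^ A ≤ T.card * 2 ^ (A - 2) :=
      (Nat.mul_le_mul_left _ h3).trans (h2.trans (Nat.mul_le_mul_left _ h1.le))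
    have h5 : (2 : ℕ) ^ A = 4 * 2 ^ (A - 2) := by
      rw [show (4 : ℕ) = 2 ^ 2 by norm_num, ← pow_add]
      congr 1
      omega
    rw [h5] at h4
    have h6 : 0 < 2 ^ (A - 2) := by positivity
    have h7 : (4 * X.card) * 2 ^ (A - 2) ≤ T.card * 2 ^ (A - 2) := by
      calc (4 * X.card) * 2 ^ (A - 2) = X.card * (4 * 2 ^ (A - 2)) := by ring
        _ ≤ T.card * 2 ^ (A - 2) := h4
    exact Nat.le_of_mul_le_mul_right h7 h6

theorem transfer {U : List Bool →. List Bool} (hU : Optimal U) :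
    ∃ c : ℝ, ∀ n : ℕ, 2 ≤ n → ∀ S : Finset (Fin n → Bool), Lin S → ∀ d₁ d₂ d₃ : ℕ,
      d₁ ≤ n → d₂ ≤ n → d₃ ≤ n → ∃ x : Fin n → Bool,
      |(M U x d₁ : ℝ) - Real.logb 2 (nbr S d₁).card| ≤ c * Real.log n ∧
      |(M U x d₂ : ℝ) - Real.logb 2 (nbr S d₂).card| ≤ c * Real.log n ∧
      |(M U x d₃ : ℝ) - Real.logb 2 (nbr S d₃).card| ≤ c * Real.log n := by
  classical
  obtain ⟨c₁, hc₁⟩ := descr_lin hU
  obtain ⟨cs, hcs0, hcs⟩ := NL_exists_s 0
  refine ⟨2 * c₁ + 64 * cs + 8, ?_⟩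
  intro n hn S hS d₁ d₂ d₃ hd₁ hd₂ hd₃
  obtain ⟨s, hs, hs'⟩ := hcs n hn
  have hl1 := one_le_log hn
  have hl0 : 0 ≤ Real.log n := by linarith
  have hc1l : (c₁ : ℝ) ≤ 2 * c₁ * Real.log n := by
    have : (0 : ℝ) ≤ c₁ := by positivity
    nlinarith
  obtain ⟨T, hT, e1, e2, e3, hdes⟩ := hc₁ n S hS d₁ d₂ d₃
  have hs0 : n < 2 ^ s := by simpa using hs
  have hTpos : 0 < T.card := Finset.card_pos.2 hT.1
  -- a point of T with complex points in its balls
  have hx : ∃ x ∈ T, Nat.log 2 (nbr T d₁).card < M U x d₁ + 3 ∧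
      Nat.log 2 (nbr T d₂).card < M U x d₂ + 3 ∧ Nat.log 2 (nbr T d₃).card < M U x d₃ + 3 := by
    by_contra hcon
    push Not at hcon
    have f1 := few_simple hU hT d₁
    have f2 := few_simple hU hT d₂
    have f3 := few_simple hU hT d₃
    have hsub : T ⊆ (T.filter (fun x => M U x d₁ + 3 ≤ Nat.log 2 (nbr T d₁).card)) ∪
        ((T.filter (fun x => M U x d₂ + 3 ≤ Nat.log 2 (nbr T d₂).card)) ∪
          (T.filter (fun x => M U x d₃ + 3 ≤ Nat.log 2 (nbr T d₃).card))) := by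
      intro x hx
      rw [mem_union, mem_union, mem_filter, mem_filter, mem_filter]
      by_cases g1 : M U x d₁ + 3 ≤ Nat.log 2 (nbr T d₁).card
      · exact Or.inl ⟨hx, g1⟩
      · by_cases g2 : M U x d₂ + 3 ≤ Nat.log 2 (nbr T d₂).card
        · exact Or.inr (Or.inl ⟨hx, g2⟩)
        · exact Or.inr (Or.inr ⟨hx, hcon x hx (not_le.1 g1) (not_le.1 g2)⟩)
    have g := (card_le_card hsub).trans ((card_union_le _ _).trans
      (Nat.add_le_add_left (card_union_le _ _) _))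
    omega
  obtain ⟨x, hxT, hx1, hx2, hx3⟩ := hx
  refine ⟨x, ?_⟩
  have key : ∀ d : ℕ, d ≤ n → Nat.log 2 (nbr T d).card = Nat.log 2 (nbr S d).card →
      Nat.log 2 (nbr T d).card < M U x d + 3 → d₁ < 2 ^ s → d₂ < 2 ^ s → d₃ < 2 ^ s →
      |(M U x d : ℝ) - Real.logb 2 (nbr S d).card| ≤ (2 * c₁ + 64 * cs + 8) * Real.log n := by
    intro d hd he hlt b1 b2 b3
    set a := Nat.log 2 (nbr T d).card with ha
    have hSpos : 0 < (nbr S d).card := TD.nbr_card_pos hS.1 d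
    have hTcard : (nbr T d).card < 2 ^ (a + 1) := Nat.lt_pow_succ_log_self (by norm_num) _
    have hup : M U x d ≤ (a + 1) + 64 * s + c₁ := by
      apply M_le
      intro y hy
      exact hdes d s (a + 1) hs0 b1 b2 b3 (lt_of_le_of_lt hd hs0) hTcard.le y
        (mem_nbr.2 ⟨x, hxT, hy⟩)
    have hS1 : 2 ^ a ≤ (nbr S d).card := by
      rw [he]; exact Nat.pow_log_le_self 2 hSpos.ne'
    have hS2 : (nbr S d).card < 2 ^ (a + 1) := by
      rw [he]; exact Nat.lt_pow_succ_log_self (by norm_num) _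
    have l1 : (a : ℝ) ≤ Real.logb 2 (nbr S d).card := by
      rw [Real.le_logb_iff_rpow_le (by norm_num) (by exact_mod_cast hSpos)]
      rw [Real.rpow_natCast]
      exact_mod_cast hS1
    have l2 : Real.logb 2 (nbr S d).card ≤ a + 1 := by
      rw [Real.logb_le_iff_le_rpow (by norm_num) (by exact_mod_cast hSpos)]
      have : ((2 : ℝ) ^ ((a : ℝ) + 1)) = ((2 ^ (a + 1) : ℕ) : ℝ) := by
        rw [show ((a : ℝ) + 1) = ((a + 1 : ℕ) : ℝ) by push_cast; ring, Real.rpow_natCast]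
        push_cast
        ring
      rw [this]
      exact_mod_cast hS2.le
    have hup' : (M U x d : ℝ) ≤ a + 1 + 64 * s + c₁ := by exact_mod_cast hup
    have hlo' : (a : ℝ) + 1 ≤ M U x d + 3 := by exact_mod_cast hlt
    have hexp : (2 * (c₁ : ℝ) + 64 * cs + 8) * Real.log n =
        2 * c₁ * Real.log n + 64 * (cs * Real.log n) + 8 * Real.log n := by ring
    have hc1' : 0 ≤ 2 * (c₁ : ℝ) * Real.log n := by positivity
    have hcs' : 0 ≤ 64 * (cs * Real.log n) := by positivity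
    rw [hexp, abs_le]
    constructor
    · linarith
    · linarith
  have b1 : d₁ < 2 ^ s := lt_of_le_of_lt hd₁ hs0
  have b2 : d₂ < 2 ^ s := lt_of_le_of_lt hd₂ hs0
  have b3 : d₃ < 2 ^ s := lt_of_le_of_lt hd₃ hs0
  exact ⟨key d₁ hd₁ e1 hx1 b1 b2 b3, key d₂ hd₂ e2 hx2 b1 b2 b3, key d₃ hd₃ e3 hx3 b1 b2 b3⟩

end Pool.Agent.Lib.MP_f4f1a8_lc.NC
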