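import Pool.Agent.Lib.MP_f4f1a8_lc.NC.Code3
import Pool.Agent.Lib.MP_f4f1a8_lc.NC.Transfer

/-! MP_f4f1a8_lc, nonconcavity, row Fin: the theorem. -/

namespace Pool.Agent.Lib.MP_f4f1a8_lc.NC

open Finset Filter

theorem log_small (K ε : ℝ) (hε : 0 < ε) : ∃ n₀ : ℕ, ∀ n : ℕ, n₀ ≤ n →
    K * Real.log n ≤ ε * n := by
  have h1 : (fun x : ℝ => K * Real.log x) =o[atTop] (fun x : ℝ => x) :=
    Real.isLittleO_log_id_atTop.const_mul_left K
  have h2 := (h1.bound hε).and (eventually_ge_atTop (0 : ℝ))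
  obtain ⟨x₀, hx₀⟩ := eventually_atTop.1 h2
  refine ⟨⌈x₀⌉₊, fun n hn => ?_⟩
  have h3 : x₀ ≤ (n : ℝ) := (Nat.le_ceil x₀).trans (by exact_mod_cast hn)
  obtain ⟨h4, h5⟩ := hx₀ n h3
  rw [Real.norm_eq_abs, Real.norm_eq_abs, abs_of_nonneg h5] at h4
  exact (le_abs_self _).trans h4

theorem logb_lower {S A k : ℕ} (hS : 0 < S) (h : S * 2 ^ k ≤ A) :
    Real.logb 2 S + k ≤ Real.logb 2 A := by
  have h0 : (0 : ℝ) < S := by exact_mod_cast hS
  have h1 : ((S : ℝ) * 2 ^ k) ≤ A := by exact_mod_cast h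
  have h2 := Real.logb_le_logb_of_le (b := 2) (by norm_num) (by positivity) h1
  rw [Real.logb_mul h0.ne' (by positivity), Real.logb_pow,
    Real.logb_self_eq_one (by norm_num), mul_one] at h2
  exact h2

theorem logb_upper {S A k : ℕ} (hS : 0 < S) (hA : 0 < A) (h : A ≤ S * 2 ^ k) :
    Real.logb 2 A ≤ Real.logb 2 S + k := by
  have h0 : (0 : ℝ) < S := by exact_mod_cast hS
  have h1 : (A : ℝ) ≤ ((S : ℝ) * 2 ^ k) := by exact_mod_cast h
  have h2 := Real.logb_le_logb_of_le (b := 2) (by norm_num) (by exact_mod_cast hA) h1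
  rw [Real.logb_mul h0.ne' (by positivity), Real.logb_pow,
    Real.logb_self_eq_one (by norm_num), mul_one] at h2
  exact h2

/-- The general form: the constant `Q` is the number of coordinates per unit. -/
theorem not_concave_aux (Q : ℕ) (hQ : 0 < Q)
    (hlin : ∀ N n : ℕ, 0 < N → N * Q ≤ n → ∃ S : Finset (Fin n → Bool), Lin S ∧
      S.card * 2 ^ (1536 * N) ≤ (nbr S N).card ∧
      S.card * 2 ^ (3072 * N) ≤ (nbr S (3 * N)).card ∧
      (nbr S (2 * N)).card ≤ S.card * 2 ^ (2244 * N)) (hQ3 : 3 ≤ Q) :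
    ∀ U : List Bool →. List Bool, Optimal U →
    ∃ n₀ : ℕ, ∀ n : ℕ, n₀ ≤ n → ∃ x : Fin n → Bool, ∃ D : ℕ, 3 * D ≤ n ∧
      2 * (M U x (2 * D) : ℝ) + (1 / (Q : ℝ)) * n ≤ M U x D + M U x (3 * D) := by
  intro U hU
  obtain ⟨c, hc⟩ := transfer hU
  have hQr : (0 : ℝ) < Q := by exact_mod_cast hQ
  obtain ⟨n₁, hn₁⟩ := log_small (4 * c) (1 / Q) (by positivity)
  refine ⟨max n₁ (max 2 Q), fun n hn => ?_⟩
  have hn1 : n₁ ≤ n := (le_max_left _ _).trans hn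
  have hn2 : 2 ≤ n := ((le_max_left _ _).trans (le_max_right _ _)).trans hn
  have hnQ : Q ≤ n := ((le_max_right _ _).trans (le_max_right _ _)).trans hn
  set N := n / Q with hN
  have hN0 : 0 < N := Nat.div_pos hnQ hQ
  have hNn : N * Q ≤ n := Nat.div_mul_le_self n Q
  have hNlt : n < (N + 1) * Q := by
    have := Nat.lt_div_mul_add (a := n) hQ
    calc n < n / Q * Q + Q := this
      _ = (N + 1) * Q := by rw [← hN]; ring
  obtain ⟨S, hS, h1, h3, h2⟩ := hlin N n hN0 hNn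
  have h3N : 3 * N ≤ n := by
    calc 3 * N ≤ Q * N := Nat.mul_le_mul_right _ hQ3
      _ = N * Q := mul_comm _ _
      _ ≤ n := hNn
  obtain ⟨x, hx1, hx2, hx3⟩ := hc n hn2 S hS N (2 * N) (3 * N) (by omega) (by omega) h3N
  refine ⟨x, N, h3N, ?_⟩
  have hSc : 0 < S.card := Finset.card_pos.2 hS.1
  have l1 := logb_lower hSc h1
  have l3 := logb_lower hSc h3
  have l2 := logb_upper hSc (TD.nbr_card_pos hS.1 (2 * N)) h2
  push_cast at l1 l2 l3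
  have g := hn₁ n hn1
  have a1 := (abs_le.1 hx1).1
  have a2 := (abs_le.1 hx2).2
  have a3 := (abs_le.1 hx3).1
  -- `2 N` is at least `n / Q`
  have hNr : (1 / (Q : ℝ)) * n ≤ 2 * N := by
    have h5 : (n : ℝ) < (N + 1) * Q := by exact_mod_cast hNlt
    have h6 : (1 : ℝ) ≤ N := by exact_mod_cast hN0
    rw [one_div, inv_mul_le_iff₀ hQr]
    nlinarith
  have hN1 : (1 : ℝ) ≤ N := by exact_mod_cast hN0
  linarith

theorem not_concave : ∃ δ : ℝ, 0 < δ ∧ ∀ U : List Bool →. List Bool, Optimal U →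
    ∃ n₀ : ℕ, ∀ n : ℕ, n₀ ≤ n → ∃ x : Fin n → Bool, ∃ D : ℕ, 3 * D ≤ n ∧
      2 * (M U x (2 * D) : ℝ) + δ * n ≤ M U x D + M U x (3 * D) := by
  have hlin : ∃ Q : ℕ, 3 ≤ Q ∧ ∀ N n : ℕ, 0 < N → N * Q ≤ n →
      ∃ S : Finset (Fin n → Bool), Lin S ∧
      S.card * 2 ^ (1536 * N) ≤ (nbr S N).card ∧
      S.card * 2 ^ (3072 * N) ≤ (nbr S (3 * N)).card ∧
      (nbr S (2 * N)).card ≤ S.card * 2 ^ (2244 * N) := by
    refine ⟨2 * 2 ^ 1536 + 3, by omega, fun N n hN h => ?_⟩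
    have h1 : 2 * N * 2 ^ 1536 ≤ n := by
      generalize (2 : ℕ) ^ 1536 = q at h ⊢
      nlinarith
    obtain ⟨S, hS⟩ := exists_lin N n hN h1
    exact ⟨S, hS⟩
  obtain ⟨Q, hQ3, hQ⟩ := hlin
  exact ⟨1 / Q, by positivity, not_concave_aux Q (by omega) hQ hQ3⟩

end Pool.Agent.Lib.MP_f4f1a8_lc.NC
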