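import Pool.Agent.Lib.MP_f4f1a8_lc.NC.Defs

/-! MP_f4f1a8_lc, nonconcavity, row Syn: neighbourhoods of the kernel of a syndrome map. -/

namespace Pool.Agent.Lib.MP_f4f1a8_lc.NC

open Finset

/-- The syndrome. -/
private def sg {α : Type} {n : ℕ} (h : Fin n → (α → ZMod 2)) (x : Fin n → Bool) : α → ZMod 2 :=
  ∑ k, if x k = true then h k else 0

private lemma two_zero {α : Type} (w : α → ZMod 2) : w + w = 0 := by
  funext a
  exact CharTwo.add_self_eq_zero (w a)

private lemma sg_bx {α : Type} {n : ℕ} (h : Fin n → (α → ZMod 2)) (x y : Fin n → Bool) :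
    sg h (bx x y) = sg h x + sg h y := by
  unfold sg
  rw [← sum_add_distrib]
  refine sum_congr rfl fun k _ => ?_
  unfold bx
  cases hx : x k <;> cases hy : y k <;> simp [two_zero]

private def ind {n : ℕ} (T : Finset (Fin n)) : Fin n → Bool := fun k => decide (k ∈ T)

private lemma sg_ind {α : Type} {n : ℕ} (h : Fin n → (α → ZMod 2)) (T : Finset (Fin n)) :
    sg h (ind T) = ∑ k ∈ T, h k := by
  unfold sg ind
  simp

private lemma dist_bx {n : ℕ} (x y : Fin n → Bool) :
    (univ.filter fun k => bx x y k = true).card = hammingDist x y := by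
  unfold hammingDist
  congr 1
  ext k
  unfold bx
  simp only [mem_filter, mem_univ, true_and]
  cases x k <;> cases y k <;> simp

private lemma bx_ind_dist {n : ℕ} (y : Fin n → Bool) (T : Finset (Fin n)) :
    hammingDist (bx y (ind T)) y = T.card := by
  rw [← dist_bx]
  congr 1
  ext k
  unfold bx ind
  simp only [mem_filter, mem_univ, true_and]
  cases y k <;> simp

private lemma bx_bx {n : ℕ} (x y : Fin n → Bool) : bx (bx x y) y = x := by
  funext k
  unfold bx
  cases x k <;> cases y k <;> rfl

open Classical in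
theorem syn_count {α : Type} [Fintype α] {n : ℕ} (h : Fin n → (α → ZMod 2)) :
    ∃ S : Finset (Fin n → Bool), Lin S ∧ ∀ d : ℕ, (nbr S d).card =
      S.card * (univ.filter (fun w : α → ZMod 2 =>
        ∃ T : Finset (Fin n), T.card ≤ d ∧ ∑ k ∈ T, h k = w)).card := by
  refine ⟨univ.filter fun x => sg h x = 0, ⟨⟨fun _ => false, ?_⟩, ?_⟩, fun d => ?_⟩
  · rw [mem_filter]
    refine ⟨mem_univ _, ?_⟩
    unfold sg
    simp
  · intro x hx y hy
    rw [mem_filter] at hx hy ⊢
    refine ⟨mem_univ _, ?_⟩
    rw [sg_bx, hx.2, hy.2, add_zero]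
  · set S : Finset (Fin n → Bool) := univ.filter fun x => sg h x = 0 with hS
    set R : Finset (α → ZMod 2) := univ.filter (fun w : α → ZMod 2 =>
        ∃ T : Finset (Fin n), T.card ≤ d ∧ ∑ k ∈ T, h k = w) with hR
    have key : ∀ y, y ∈ nbr S d ↔ sg h y ∈ R := by
      intro y
      unfold nbr
      rw [hR, mem_filter, mem_filter]
      simp only [mem_univ, true_and]
      constructor
      · rintro ⟨x, hx, hxy⟩
        rw [hS, mem_filter] at hx
        refine ⟨univ.filter fun k => bx x y k = true, by rw [dist_bx]; exact hxy, ?_⟩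
        rw [sum_filter]
        have := sg_bx h x y
        rw [hx.2, zero_add] at this
        exact this
      · rintro ⟨T, hT, hTy⟩
        refine ⟨bx y (ind T), ?_, by rw [bx_ind_dist]; exact hT⟩
        rw [hS, mem_filter]
        refine ⟨mem_univ _, ?_⟩
        rw [sg_bx, sg_ind, hTy, two_zero]
    rw [card_eq_sum_card_fiberwise (f := sg h) (t := R) (fun y hy => (key y).1 hy)]
    rw [sum_const_nat (m := S.card)]
    · rw [mul_comm]
    · intro w hw
      have hw' := hw
      rw [hR, mem_filter] at hw'
      obtain ⟨-, T, -, hTw⟩ := hw'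
      refine card_bij' (fun y _ => bx y (ind T)) (fun x _ => bx x (ind T)) ?_ ?_ ?_ ?_
      · intro y hy
        rw [mem_filter] at hy
        rw [hS, mem_filter]
        refine ⟨mem_univ _, ?_⟩
        rw [sg_bx, sg_ind, hy.2, hTw, two_zero]
      · intro x hx
        rw [hS, mem_filter] at hx
        have hs : sg h (bx x (ind T)) = w := by
          rw [sg_bx, hx.2, zero_add, sg_ind, hTw]
        rw [mem_filter, key, hs]
        exact ⟨hw, rfl⟩
      · intro y _
        exact bx_bx y (ind T)
      · intro x _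
        exact bx_bx x (ind T)

end Pool.Agent.Lib.MP_f4f1a8_lc.NC
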